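import Pool.Agent.Helper71.BLD.Resc
import Pool.Agent.Helper13.AM.Der

/-! Corners: NESTED FRAMES and the frames of the zoom. -/

set_option autoImplicit false

namespace Pool.Agent.Helper71.BLD

open Finset Filter Topology Pool.Agent.Helper69.RK Pool.Agent.Helper31.EC Pool.Agent.Helper31.EC.Sp
open Pool.Agent.Helper31.EC.QS
open Pool.Agent.Helper57.TA
open Pool.Agent.Helper13.AM
open Pool.Agent.Helper82.TP (Lit)
open Pool.Agent.Helper77.WDG (WLe WLt wt_add wt_zero wt_single wt_nonneg deg_le_wt)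

noncomputable section

variable {S : Sp} {d N r : ℕ}

/-- weights of all coordinates -/
def wv (d : ℕ) {N : ℕ} (w : Fin N → ℝ) : Fin (d + 1) ⊕ Fin N → ℝ := Sum.elim (fun _ => 1) w

theorem wv_one {w : Fin N → ℝ} (hw : ∀ j, 1 < w j) (a : Fin (d + 1) ⊕ Fin N) : 1 ≤ wv d w a := by
  rcases a with i | j
  · exact le_rfl
  · exact (hw j).le

theorem wv_le {w : Fin N → ℝ} {z : Fin N} (hw : ∀ j, 1 < w j) (hz : ∀ j, w j ≤ w z) (a : Fin (d + 1) ⊕ Fin N) :
    wv d w a ≤ w z := by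
  rcases a with i | j
  · exact (hw z).le
  · exact hz j

/-- a coordinate of lower weight than another one -/
theorem wv_low {w : Fin N → ℝ} {z : Fin N} (hw : ∀ j, 1 < w j) (hz : ∀ j, w j ≤ w z) {a : Fin (d + 1) ⊕ Fin N}
    (h : ∃ b, wv d w a < wv d w b) : wv d w a < w z := by
  obtain ⟨b, hb⟩ := h
  exact hb.trans_le (wv_le hw hz b)

/-- frame polynomials of all coordinates -/
def fP (c : CD S d N r) (s : ℝ) : Fin (d + 1) ⊕ Fin N → MvPolynomial (Fin (d + 1) ⊕ Fin N) (QS S) :=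
  Sum.elim (fun i => MvPolynomial.C (c.q0 s i)) (c.F s)

/-- `X` are the box coordinates of scale `s`, scaled to the unit box -/
structure IsX (c : CD S d N r) (w : Fin N → ℝ) (s : ℝ) (X : Fin (d + 1) ⊕ Fin N → QS S) : Prop where
  q : ∀ i, c.q i - c.q0 s i = sc S s * X (Sum.inl i)
  R : ∀ j, c.γ s j = sc S (w j * s) * X (Sum.inr j)

variable {c : CD S d N r} {w : Fin N → ℝ} {z : Fin N}

theorem exists_X (hc : c.Bx w z) (hw : ∀ j, 1 < w j) (hz : ∀ j, w j ≤ w z) {s : ℝ} (h0 : 0 ≤ s) (h1 : w z * s ≤ 1) :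
    ∃ X, IsX c w s X := by
  have hs1 : s ≤ 1 := by
    have := hw z
    nlinarith
  have hj : ∀ j, w j * s ≤ 1 := fun j => (mul_le_mul_of_nonneg_right (hz j) h0).trans h1
  have hj0 : ∀ j, 0 ≤ w j * s := fun j => mul_nonneg (zero_le_one.trans (hw j).le) h0
  choose X hX _ using fun i => exists_div' h0 hs1 (hc.fq s h0 h1 i)
  choose Y hY _ using fun j => exists_div' (hj0 j) (hj j) (hc.fγ s h0 h1 j)
  exact ⟨Sum.elim X Y, hX, hY⟩

theorem IsX.us {s : ℝ} {X : Fin (d + 1) ⊕ Fin N → QS S} (hX : IsX c w s X) :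
    Us (wv d w) s X = Sum.elim (fun i => c.q i - c.q0 s i) (c.γ s) := by
  funext a
  rcases a with i | j
  · show sc S (1 * s) * X (Sum.inl i) = c.q i - c.q0 s i
    rw [one_mul, hX.q i]
  · show sc S (w j * s) * X (Sum.inr j) = c.γ s j
    rw [hX.R j]

theorem fP_wd (hc : c.Bx w z) (hw : ∀ j, 1 < w j) (s : ℝ) : Wd (wv d w) (fP c s) := by
  intro a
  rcases a with i | j
  · exact WLt.C one_pos _
  · have h0 : 0 < w j := one_pos.trans (hw j)
    rw [Pool.Agent.Helper77.WDG.wLt_iff (show 0 < wv d w (Sum.inr j) from h0)]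
    intro n hn _
    exact hc.deg s j n (MvPolynomial.mem_support_iff.mp hn)

theorem fP_eq (hc : c.Bx w z) {s : ℝ} (h0 : 0 ≤ s) (h1 : w z * s ≤ 1) {X : Fin (d + 1) ⊕ Fin N → QS S}
    (hX : IsX c w s X) (a : Fin (d + 1) ⊕ Fin N) : c.pt a = MvPolynomial.eval (Us (wv d w) s X) (tm (fP c s) a) := by
  rw [eval_tm, hX.us]
  rcases a with i | j
  · show c.q i = c.q i - c.q0 s i + MvPolynomial.eval _ (MvPolynomial.C (c.q0 s i))
    rw [MvPolynomial.eval_C]
    ring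
  · show c.R j = c.γ s j + MvPolynomial.eval _ (c.F s j)
    rw [hc.fR s h0 h1 j]
    ring

/-- coefficients of the frame polynomials are literal functions of the box -/
theorem fP_lit (hc : c.Bx w z) (s : ℝ) (a : Fin (d + 1) ⊕ Fin N) :
    fP c s a ∈ CB (Fin (d + 1) ⊕ Fin N) (LitR (c.VK s)) := by
  rcases a with i | j
  · exact CB_C (hc.litq s i)
  · exact fun n => hc.litF s j n

theorem fP_PK (hc : c.Bx w z) (s : ℝ) (a : Fin (d + 1) ⊕ Fin N) : fP c s a ∈ PK (c.K s) :=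
  fun n => Lit.dg_le (fP_lit hc s a n) (hc.bdd s) le_rfl

/-! ### the coordinates without `z` are full over the box, at their own levels -/

/-- a known combination -/
theorem dg_us_le {A : S.L} {s : ℝ} (h0 : 0 ≤ s) {u : ℝ} (hu : 0 ≤ u) {f X : QS S} (hf : f = sc S (u * s) * X)
    (h : dg X (1 - u * s) ≤ A) : dg f 1 ≤ A := by
  rw [hf, dg_scl X (mul_nonneg hu h0) le_rfl]
  exact h

/-- levels of the box coordinates -/
def lev (d : ℕ) {N : ℕ} (w : Fin N → ℝ) (s : ℝ) (a : Fin (d + 1) ⊕ Fin N) : ℝ := 1 - wv d w a * s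

open Classical in
/-- all digits (to the resolution) of the coordinates other than `z`, in the box -/
theorem lower_le (hc : c.Bx w z) (hw : ∀ j, 1 < w j) (hz : ∀ j, w j ≤ w z) {s : ℝ} (h0 : 0 ≤ s) (h1 : w z * s ≤ 1)
    {X : Fin (d + 1) ⊕ Fin N → QS S} (hX : IsX c w s X) {A : S.L} (hA : c.K s ≤ A)
    (h : ∀ a, a ≠ Sum.inr z → dg (X a) (lev d w s a) ≤ A) : vd (c.M z) 1 ⊔ c.P ≤ A := by
  have hU : ∀ a, a ≠ Sum.inr z → dg (Us (wv d w) s X a) 1 ≤ A := fun a ha =>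
    dg_us_le h0 (zero_le_one.trans (wv_one hw a)) (f := Us (wv d w) s X a) rfl (h a ha)
  have hQ : ∀ a, a ≠ Sum.inr z → dg (c.pt a) 1 ≤ A := by
    intro a ha
    rw [fP_eq hc h0 h1 hX a, eval_tm]
    refine (Kn S 1 le_rfl A).add_mem (hU a ha) (eval_mem_sub _ _ _ (fun n => ?_) fun n hn b hb => ?_)
    · exact (fP_PK hc s a n).trans hA
    · refine hU b ?_
      rintro rfl
      have h2 := (fP_wd hc hw s).vars (fun a => one_pos.trans_le (wv_one hw a)) a (Sum.inr z) (by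
        rw [MvPolynomial.mem_vars_iff_mem_support]
        exact ⟨n, MvPolynomial.mem_support_iff.mpr hn, hb⟩)
      exact absurd (wv_le hw hz a) (not_le.mpr h2)
  refine sup_le ?_ ?_
  · rw [vd_le]
    intro j
    exact hQ (Sum.inr j.1) (fun h => j.2 (Sum.inr_injective h))
  · unfold CD.P
    rw [vd_le]
    intro i
    exact hQ (Sum.inl i) (by simp)

/-- digits -/
theorem H_dg_le' (f : QS S) {r : ℝ} (hr : 0 ≤ r) : H (dg f r) ≤ r := H_dg_le f hr

open Classical in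
/-- the coordinates other than `z` are independent and full over the box -/
theorem lower_full {ρ : ℝ} (hc : c.Bx w z) (hn : c.Num w z ρ) (hq : Rl c.q ⊥) (hw : ∀ j, 1 < w j)
    (hz : ∀ j, w j ≤ w z) {s : ℝ} (h0 : 0 ≤ s) (h1 : w z * s ≤ 1) {X : Fin (d + 1) ⊕ Fin N → QS S}
    (hX : IsX c w s X) : ∑ a ∈ univ.erase (Sum.inr z), lev d w s a ≤
      h ((univ.erase (Sum.inr z)).sup fun a => dg (X a) (lev d w s a)) (c.K s) := by
  have h2 := lower_le hc hw hz h0 h1 hX (A := c.K s ⊔ (univ.erase (Sum.inr z)).sup fun a => dg (X a) (lev d w s a))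
    le_sup_left (fun a ha => (Finset.le_sup (f := fun a => dg (X a) (lev d w s a))
      (Finset.mem_erase.mpr ⟨ha, mem_univ a⟩)).trans le_sup_right)
  have h3 : h (vd (c.M z) 1 ⊔ c.P) (c.K s) ≤
      h ((univ.erase (Sum.inr z)).sup fun a => dg (X a) (lev d w s a)) (c.K s) := by
    rw [sup_comm (c.K s)] at h2
    have h4 : h (vd (c.M z) 1 ⊔ c.P) (c.K s) ≤
        h (((univ.erase (Sum.inr z)).sup fun a => dg (X a) (lev d w s a)) ⊔ c.K s) (c.K s) := h_mono h2
    rwa [h_sup_right_of_le le_rfl] at h4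
  refine le_trans (le_of_eq ?_) h3
  have h5 : h (vd (c.M z) 1 ⊔ c.P) (c.K s) = h c.P (c.K s) + h (vd (c.M z) 1) (c.K s ⊔ c.P) := by
    rw [sup_comm (vd (c.M z) 1), h_chain, sup_comm c.P]
  have h6 : h c.P (c.K s) = ((d : ℝ) + 1) * (1 - s) := by
    have h7 := hn.pr0 s h0 h1
    have h8 : H c.P = (d : ℝ) + 1 := by
      have h9 : h (vd c.q 1) ⊥ = (Fintype.card (Fin (d + 1)) : ℝ) := hq
      rw [h_bot, Fintype.card_fin] at h9
      push_cast at h9
      exact h9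
    rw [I_comm, I_eq, h_bot, sup_bot_eq] at h7
    linarith
  have h7 := hn.pr2 s 1 h0 h1 le_rfl
  rw [h5, h6, h7]
  have e1 : (univ.erase (Sum.inr z) : Finset (Fin (d + 1) ⊕ Fin N)) =
      (univ : Finset (Fin (d + 1))).disjSum (univ.erase z) := by
    ext a
    rcases a with i | j
    · simp
    · simp
  rw [e1, Finset.sum_disjSum]
  have e2 : ∑ i : Fin (d + 1), lev d w s (Sum.inl i) = ((d : ℝ) + 1) * (1 - s) := by
    have : ∀ i : Fin (d + 1), lev d w s (Sum.inl i) = 1 - s := fun i => by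
      show 1 - 1 * s = 1 - s
      rw [one_mul]
    simp only [this]
    rw [Finset.sum_const, Finset.card_univ, Fintype.card_fin, nsmul_eq_mul]
    push_cast
    ring
  have e3 : ∑ j ∈ univ.erase z, lev d w s (Sum.inr j) = ((N : ℝ) - 1) - (∑ j ∈ univ.erase z, w j) * s := by
    have : ∀ j : Fin N, lev d w s (Sum.inr j) = 1 - w j * s := fun j => rfl
    simp only [this]
    rw [Finset.sum_sub_distrib, Finset.sum_const, Finset.card_erase_of_mem (mem_univ z), Finset.card_univ,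
      Fintype.card_fin, nsmul_eq_mul, mul_one, Finset.sum_mul]
    congr 1
    have : 1 ≤ N := by have := z.2; omega
    rw [Nat.cast_sub this, Nat.cast_one]
  rw [e2, e3]
  ring

/-- from different levels to one level -/
theorem Rt_of_lev {α : Type} [Fintype α] {X : α → QS S} {K : S.L} {T : Finset α} {le : α → ℝ}
    (hle : ∀ a ∈ T, 0 ≤ le a) (h : ∑ a ∈ T, le a ≤ h (T.sup fun a => dg (X a) (le a)) K) {V : α → Prop}
    [DecidablePred V] {ℓ : ℝ} (h0 : 0 ≤ ℓ) (hV : ∀ a, V a → a ∈ T ∧ ℓ ≤ le a) : Rt ℓ (fun a : {a // V a} => X a.1) K := by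
  apply Rt.of_ge h0
  set A : S.L := vd (fun a : {a // V a} => X a.1) ℓ with hA
  have h1 : Pool.Agent.Helper31.EC.h (T.sup fun a => dg (X a) (le a)) K ≤
      Pool.Agent.Helper31.EC.h (T.sup fun a => dg (X a) (le a)) (A ⊔ K) + Pool.Agent.Helper31.EC.h A K :=
    h_triangle _ _ _
  have h2 : Pool.Agent.Helper31.EC.h (T.sup fun a => dg (X a) (le a)) (A ⊔ K) ≤
      ∑ a ∈ T, (le a - if V a then ℓ else 0) := by
    refine (h_finsup_le T _ _).trans (Finset.sum_le_sum fun a ha => ?_)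
    split_ifs with hVa
    · have h3 : dg (X a) ℓ ≤ A ⊔ K := (dg_le_vd (fun a : {a // V a} => X a.1) ℓ ⟨a, hVa⟩).trans le_sup_left
      exact (h_anti h3).trans (h_dg_dg _ (hV a hVa).2)
    · rw [sub_zero]
      exact (h_le_H _ _).trans (H_dg_le _ (hle a ha))
  rw [Finset.sum_sub_distrib, ← Finset.sum_filter, Finset.sum_const, nsmul_eq_mul] at h2
  have h3 : ((T.filter V).card : ℝ) = Fintype.card {a // V a} := by
    rw [Fintype.card_subtype]
    congr 2
    ext a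
    rw [Finset.mem_filter, Finset.mem_filter]
    exact ⟨fun h => ⟨mem_univ _, h.2⟩, fun h => ⟨(hV a h.2).1, h.2⟩⟩
  rw [h3] at h2
  linarith

theorem lev_nonneg (hw : ∀ j, 1 < w j) (hz : ∀ j, w j ≤ w z) {s : ℝ} (h0 : 0 ≤ s) (h1 : w z * s ≤ 1)
    (a : Fin (d + 1) ⊕ Fin N) : 0 ≤ lev d w s a := by
  have := mul_le_mul_of_nonneg_right (wv_le hw hz a) h0
  unfold lev
  linarith

/-- no relation between the coordinates of lower weight over the box -/
theorem lower_NRx {ρ : ℝ} (hc : c.Bx w z) (hn : c.Num w z ρ) (hq : Rl c.q ⊥) (hw : ∀ j, 1 < w j)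
    (hz : ∀ j, w j ≤ w z) {s : ℝ} (h0 : 0 ≤ s) (h1 : w z * s ≤ 1) {X : Fin (d + 1) ⊕ Fin N → QS S}
    (hX : IsX c w s X) : NRx (fun a => ∃ b, wv d w a < wv d w b) (c.K s) X := by
  classical
  set V : Fin (d + 1) ⊕ Fin N → Prop := fun a => ∃ b, wv d w a < wv d w b with hV
  obtain ⟨ℓ, hℓ0, hℓ1, hℓ⟩ : ∃ ℓ : ℝ, 0 < ℓ ∧ ℓ ≤ 1 ∧ ∀ a, V a → ℓ ≤ lev d w s a := by
    have hpos : ∀ a, V a → 0 < lev d w s a := by
      intro a ha
      have h2 := wv_low hw hz ha
      unfold lev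
      rcases h0.eq_or_lt with h3 | h3
      · rw [← h3, mul_zero, sub_zero]
        exact one_pos
      · have := mul_lt_mul_of_pos_right h2 h3
        linarith
    rcases (univ.filter V).eq_empty_or_nonempty with h2 | h2
    · refine ⟨1, one_pos, le_rfl, fun a ha => ?_⟩
      have : a ∈ univ.filter V := Finset.mem_filter.mpr ⟨mem_univ a, ha⟩
      rw [h2] at this
      exact absurd this (Finset.notMem_empty _)
    · obtain ⟨b, hb, hmin⟩ := Finset.exists_min_image _ (lev d w s) h2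
      rw [Finset.mem_filter] at hb
      refine ⟨min (lev d w s b) 1, lt_min (hpos b hb.2) one_pos, min_le_right _ _, fun a ha => ?_⟩
      exact (min_le_left _ _).trans (hmin a (Finset.mem_filter.mpr ⟨mem_univ a, ha⟩))
  have hdec : DecidablePred V := Classical.decPred V
  have hfull := lower_full hc hn hq hw hz h0 h1 hX
  have hRt : @Rt S ℓ {a // V a} (@Subtype.fintype _ V hdec _) (fun a : {a // V a} => X a.1) (c.K s) := by
    refine Rt_of_lev (T := univ.erase (Sum.inr z)) (le := lev d w s)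
      (fun a _ => lev_nonneg hw hz h0 h1 a) hfull hℓ0.le fun a ha => ⟨?_, hℓ a ha⟩
    rw [Finset.mem_erase]
    refine ⟨?_, mem_univ a⟩
    rintro rfl
    exact lt_irrefl _ (wv_low hw hz ha)
  exact @NRx_of_Rt S _ _ V hdec _ X ℓ hℓ0 hℓ1 hRt

/-- NESTED FRAMES of a corner -/
theorem cd_nest {ρ : ℝ} (hc : c.Bx w z) (hn : c.Num w z ρ) (hq : Rl c.q ⊥) (hw : ∀ j, 1 < w j)
    (hz : ∀ j, w j ≤ w z) {s s' : ℝ} (h0 : 0 ≤ s) (hss : s ≤ s') (h1 : w z * s' ≤ 1) (a : Fin (d + 1) ⊕ Fin N)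
    (n : Fin (d + 1) ⊕ Fin N →₀ ℕ) :
    (trs (wv d w) (fP c s) (fP c s') a).coeff n ∈ QS.Id S ((wv d w a - wgt (wv d w) n) * s) := by
  classical
  have hz0 : 0 < w z := one_pos.trans (hw z)
  have hr : ∀ t, t ≤ s' → w z * t ≤ 1 := fun t ht => (mul_le_mul_of_nonneg_left ht hz0.le).trans h1
  have hex : ∀ t : ℝ, ∃ X, 0 ≤ t → w z * t ≤ 1 → IsX c w t X := by
    intro t
    by_cases ht : 0 ≤ t ∧ w z * t ≤ 1
    · obtain ⟨X, hX⟩ := exists_X hc hw hz ht.1 ht.2
      exact ⟨X, fun _ _ => hX⟩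
    · exact ⟨fun _ => 0, fun h2 h3 => absurd ⟨h2, h3⟩ ht⟩
  choose X hX using hex
  refine nest (w := wv d w) (wv_one hw) h0 hss (fun a => ?_) (Q := c.pt) (K := c.K) (P := fP c) (X := X)
    (fun t t' a1 a2 a3 => hc.mono t t' (h0.trans a1) a2 (hr t' a3)) (fun t _ _ => fP_wd hc hw t)
    (fun t _ _ a => fP_PK hc t a) (fun t a1 a2 a => fP_eq hc (h0.trans a1) (hr t a2) (hX t (h0.trans a1) (hr t a2)) a)
    (fun t a1 a2 => lower_NRx hc hn hq hw hz (h0.trans a1.le) (hr t a2) (hX t (h0.trans a1.le) (hr t a2))) a n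
  exact (mul_le_mul_of_nonneg_right (wv_le hw hz a) (h0.trans hss)).trans h1

/-- the transition between the boxes of two scales (the form of helper33) -/
theorem exists_tra {ρ : ℝ} (hc : c.Bx w z) (hn : c.Num w z ρ) (hq : Rl c.q ⊥) (hw : ∀ j, 1 < w j)
    (hz : ∀ j, w j ≤ w z) {s s' : ℝ} (h0 : 0 ≤ s) (hss : s ≤ s') (h1 : w z * s' ≤ 1) :
    ∃ T : Fin N → MvPolynomial (Fin (d + 1) ⊕ Fin N) (QS S),
      (∀ j, c.γ s j = MvPolynomial.eval (Sum.elim (fun i => c.q i - c.q0 s' i) (c.γ s')) (T j) + c.γ s' j) ∧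
      (∀ j n, (T j).coeff n ≠ 0 → wgt (Sum.elim (fun _ => 1) w) n < w j) ∧ (∀ j n, dg ((T j).coeff n) 1 ≤ c.K s') ∧
      ∀ j n, (T j).coeff n ∈ QS.Id S ((w j - wgt (Sum.elim (fun _ => 1) w) n) * s) := by
  have hz0 : 0 < w z := one_pos.trans (hw z)
  have h1s : w z * s ≤ 1 := (mul_le_mul_of_nonneg_left hss hz0.le).trans h1
  have hw0 : ∀ a, 0 < wv d w a := fun a => one_pos.trans_le (wv_one hw a)
  obtain ⟨X, hX⟩ := exists_X hc hw hz h0 h1s
  obtain ⟨X', hX'⟩ := exists_X hc hw hz (h0.trans hss) h1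
  refine ⟨fun j => trs (wv d w) (fP c s) (fP c s') (Sum.inr j), fun j => ?_, fun j n h2 => ?_, fun j n => ?_,
    fun j n => cd_nest hc hn hq hw hz h0 hss h1 (Sum.inr j) n⟩
  · have h2 := eval_trs (Q := fP c s') hw0 (fP_wd hc hw s) (U := Us (wv d w) s X) (U' := Us (wv d w) s' X')
      (fun a => (fP_eq hc h0 h1s hX a).symm.trans (fP_eq hc (h0.trans hss) h1 hX' a)) (Sum.inr j)
    rw [hX.us, hX'.us] at h2
    exact h2.trans (add_comm _ _)
  · exact ((fP_wd hc hw s).trs hw0 (fP_wd hc hw s')).wgt_lt h2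
  · exact trs_CB (B := Kn S 1 le_rfl (c.K s')) hw0 (fP_wd hc hw s)
      (fun a n => (fP_PK hc s a n).trans (hc.mono s s' h0 hss h1)) (fun a n => fP_PK hc s' a n) (Sum.inr j) n

end

end Pool.Agent.Helper71.BLD
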