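import Pool.Agent.Helper71.BLD.Zbx
import Pool.Agent.Helper13.AM.Axz
import Pool.Agent.Helper33.CM.Zn

/-! THE BUILDER, row AXZ: zooms of corners. -/

set_option autoImplicit false

namespace Pool.Agent.Helper71.BLD

open Pool.Agent.Helper13.AM Pool.Agent.Helper10.BLD

theorem st_zbx : ST_ZBX := by
  intro S d N r c w z ρ hc hn s e he h1 h0 hse Z hZ X Y A g' Cf hT
  obtain ⟨m', G', q0', F', γ', hB, h2⟩ := zm_bx hc.ln hc.bx hn hc.w1 hc.wz h0 he h1 hse hZ hT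
    (fun c' hz => Helper33.CM.num_zoom hc.bx hn hc.ln.real hc.w1 hc.wz h0 hse hz)
  exact ⟨m', G', q0', F', γ', hB, h2.q0, h2.γ⟩

/-- ROW AXZ -/
theorem st_axz : ST_AXZ := axz_of st_zbx

end Pool.Agent.Helper71.BLD
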