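import Pool.Agent.Helper50.BLD.Yz

/-! THE VISIBLE PARAMETER of a leaf: it is full, its windows are known to the windows of the leaf, what is known to the
visible parameter and to the window of the leaf is known to the window of the visible parameter. -/

set_option autoImplicit false

namespace Pool.Agent.Helper71.BLD

open Finset Filter Topology Pool.Agent.Helper69.RK Pool.Agent.Helper31.EC Pool.Agent.Helper31.EC.Sp
open Pool.Agent.Helper31.EC.QS Pool.Agent.Helper40.EL Pool.Agent.Helper84.MT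
open Pool.Agent.Helper50.BLD
open Pool.Agent.Helper57.TA (h_vd_vd h_vd_le)
open Pool.Agent.Helper82.TP (Lit)

noncomputable section

variable {S : Sp} {M : ℕ} {E : ℕ → ℕ} {Q : S.VV M} {l : Leaf S Q E} {w : Fin M → ℝ} {c : PCh l w} (d : Dir c)

/-- cells of level `r` of the visible parameter -/
def cz (r : ℝ) : Part S := fun k => fc (Setoid.ker (d.Yz.cellv r k))

theorem cz_Bd (r : ℝ) : (cz d r).Bd := rpI_Bd (d.Yz.bdd r).toInf

theorem Yz_dg {r : ℝ} (hr : r ≤ 1) : d.Yz.dg r = vd d.z r := by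
  unfold Dir.Yz
  rw [TR.vec_dg_eq]
  unfold vd
  congr 1
  funext a
  rw [← dg_mk _ hr, mk_rep]

theorem cz_rp {r : ℝ} (hr : r ≤ 1) : PLe (cz d r) (rp (vd d.z r)) ∧ PLe (rp (vd d.z r)) (cz d r) := by
  have e : vd d.z r = Sp.cl (d.Yz.bdd r).toInf := by
    rw [← Yz_dg d hr]
    exact io_eq _
  rw [e]
  exact ⟨(rp_rpI _).2, (rp_rpI _).1⟩

theorem wz_eq (t : ℝ) (k : ℕ) : d.wz t k = fc (l.La k) ⊔ cz d t k := by
  unfold Dir.wz cz
  rw [fc_inf]

/-- the coefficients of the visible forms are known to the leaf -/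
theorem C_kb (a : Fin d.n) (m : Fin l.e) {B : Part S} (hB : PLe (fun k => fc (l.La k)) B) {r : ℝ} (hr : r ≤ 1) :
    d.C a m ∈ KB B r hr := by
  refine KP.trans (lit_kp (d.lit a m) hr) ?_
  have h1 : pv (qV l.La) = fun k => fc (l.La k) := funext fun k => pv_qV l.La k
  rw [h1]
  exact hB

theorem La_win (t : ℝ) : PLe (fun k => fc (l.La k)) (l.win t) := PLe_of_le fun _ => fc_mono inf_le_left

theorem y_win (m : Fin l.e) {t : ℝ} (ht : t ≤ 1) : KP (l.win t) (dg (PCh.y l m) t) := by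
  have h1 := PCh.TA_rp l ∅ ht
  have e1 : PCh.TA l ∅ t = l.win t := funext fun k => PCh.TA_empty l t k
  rw [e1] at h1
  refine h1.mono ?_
  exact (Finset.le_sup (f := fun m => dg (PCh.y l m) t) (Finset.mem_univ m)).trans le_sup_left

/-- the window of the visible parameter is known to the window of the leaf -/
theorem win_z {t : ℝ} (ht : t ≤ 1) : PLe (d.wz t) (l.win t) := by
  have e1 : d.wz t = fun k => fc (l.La k) ⊔ cz d t k := funext fun k => wz_eq d t k
  rw [e1]
  refine PLe.sup_le (La_win t) ((cz_rp d ht).1.trans ?_)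
  refine KP.vd fun a => ?_
  show d.z a ∈ KB (l.win t) t ht
  unfold Dir.z
  exact Subring.sum_mem _ fun m _ => Subring.mul_mem _ (C_kb d a m (La_win t) ht) (y_win m ht)

open Classical in
/-- the invisible directions -/
def Jc : Finset (Fin l.e) := univ.filter fun m => m ∉ Set.range d.J

theorem Jc_card : ((Jc d).card : ℝ) = l.e - d.n := by
  classical
  have h1 : (Jc d).card + (univ.image d.J).card = l.e := by
    have h2 : Jc d = univ \ (univ.image d.J) := by
      ext m
      unfold Jc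
      simp
    rw [h2, Finset.card_sdiff_add_card_eq_card (Finset.subset_univ _), Finset.card_univ, Fintype.card_fin]
  rw [Finset.card_image_of_injective _ d.inj, Finset.card_univ, Fintype.card_fin] at h1
  have h3 : (((Jc d).card + d.n : ℕ) : ℝ) = l.e := by exact_mod_cast h1
  push_cast at h3
  linarith

/-- the parameter is known to the visible parameter, to the invisible directions and to the leaf -/
theorem y_le {W : Part S} (h1 : PLe (fun k => fc (l.La k)) W) (h2 : PLe (cz d 1) W) (h3 : PLe (PCh.cm l (Jc d) 1) W) :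
    PLe (PCh.cm l univ 1) W := by
  have hJ : ∀ m : d.σ, PCh.y l m.1 ∈ KB W 1 le_rfl := by
    intro m
    have h4 : KP W (PCh.sr l (Jc d) 1) := (PCh.cm_rp l (Jc d) le_rfl).2.trans h3
    refine h4.mono ?_
    refine Finset.le_sup (f := fun m => dg (PCh.y l m) 1) ?_
    unfold Jc
    rw [Finset.mem_filter]
    exact ⟨Finset.mem_univ _, m.2⟩
  have hz : ∀ a, d.z a ∈ KB W 1 le_rfl := by
    intro a
    have h4 : KP W (vd d.z 1) := (cz_rp d le_rfl).2.trans h2
    exact h4.mono (dg_le_vd d.z 1 a)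
  refine (PCh.cm_rp l univ le_rfl).1.trans (KP.finsup _ _ fun m _ => ?_)
  show PCh.y l m ∈ KB W 1 le_rfl
  obtain ⟨x, rfl⟩ := d.eq.surjective m
  rcases x with a | m
  · rw [d.eq_inl]
    have e1 : PCh.y l (d.J a) = d.z a - ∑ m : d.σ, d.C a m.1 * PCh.y l m.1 := by
      rw [d.z_eq]
      ring
    rw [e1]
    exact Subring.sub_mem _ (hz a) (Subring.sum_mem _ fun m _ => Subring.mul_mem _ (C_kb d a m.1 h1 le_rfl) (hJ m))
  · rw [d.eq_inr]
    exact hJ m

/-- the visible parameter is full over the window of the leaf -/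
theorem le_hr_z {t : ℝ} (h0 : 0 ≤ t) (ht : t ≤ 1) : (d.n : ℝ) * (1 - t) ≤ hr (cz d 1) (l.win t) := by
  classical
  have e1 : PCh.TA l ∅ t = l.win t := funext fun k => PCh.TA_empty l t k
  have a1 := PCh.le_hr_cm l ∅ univ h0 ht
  have a2 := PCh.hr_cm_le l ∅ (Jc d) ht
  rw [e1] at a1 a2
  rw [Finset.card_univ, Fintype.card_fin, Finset.card_empty, Nat.cast_zero, sub_zero] at a1
  rw [Finset.sdiff_empty, Jc_card] at a2
  have a3 : PLe (PCh.cm l univ 1) (fun k => cz d 1 k ⊔ (PCh.cm l (Jc d) 1 k ⊔ l.win t k)) :=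
    y_le d ((La_win t).trans (PLe_of_le fun k => le_sup_right.trans le_sup_right)) (PLe_of_le fun k => le_sup_left)
      (PLe_of_le fun k => le_sup_left.trans le_sup_right)
  have a4 : hr (PCh.cm l univ 1) (l.win t) ≤ hr (cz d 1) (l.win t) + hr (PCh.cm l (Jc d) 1) (l.win t) := by
    have t1 := (PCh.cm_Bd l univ 1).tendsto (l.win t)
    have t2 := ((cz_Bd d 1).tendsto (l.win t)).add ((PCh.cm_Bd l (Jc d) 1).tendsto (l.win t))
    have t3 := t2.add a3
    rw [add_zero] at t3
    refine le_of_tendsto_of_tendsto t1 t3 (Eventually.of_forall fun k => ?_)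
    beta_reduce
    rw [← add_div, ← add_div]
    apply div_le_div_of_nonneg_right _ (S.F k).pos.le
    have d1 := h_triangle (PCh.cm l univ 1 k) (cz d 1 k ⊔ PCh.cm l (Jc d) 1 k) (l.win t k)
    have d2 := h_sup_le (cz d 1 k) (PCh.cm l (Jc d) 1 k) (l.win t k)
    rw [sup_assoc] at d1
    linarith
  nlinarith

/-- THE VISIBLE PARAMETER IS FULL -/
theorem full_z : Tendsto (fun k => h (fc (Setoid.ker (d.Yz.cellv 1 k))) (fc (l.La k)) / (S.F k).n) UF
    (𝓝 (d.n : ℝ)) := by
  have h1 := (cz_Bd d 1).tendsto (fun k => fc (l.La k))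
  have h2 : hr (cz d 1) (fun k => fc (l.La k)) = d.n := by
    apply le_antisymm
    · have h3 : hr (cz d 1) (fun k => fc (l.La k)) ≤ hr (rp (vd d.z 1)) (fun k => fc (l.La k)) :=
        hr_mono (cz_Bd d 1) (rp_Bd _) (cz_rp d le_rfl).1
      have h4 : hr (rp (vd d.z 1)) (fun k => fc (l.La k)) ≤ hr (rp (vd d.z 1)) (rp ⊥) := hr_anti (rp_Bd _) (KP.bot _)
      rw [hr_rp] at h4
      have h5 := h_vd_le d.z zero_le_one (⊥ : S.L)
      rw [Fintype.card_fin, mul_one] at h5
      linarith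
    · have h3 := le_hr_z d le_rfl zero_le_one
      rw [sub_zero, mul_one] at h3
      exact h3.trans (hr_anti (cz_Bd d 1) (La_win 0))
  rw [h2] at h1
  exact h1

/-- WHAT IS KNOWN to the visible parameter and to the window of the leaf -/
theorem src_z {t : ℝ} (h0 : 0 ≤ t) (ht : t ≤ 1) {X : Part S} (hp : PLe X (d.wz 1)) (hw : PLe X (l.win t)) :
    PLe X (d.wz t) := by
  have b1 : hr (cz d 1) (d.wz t) ≤ (d.n : ℝ) * (1 - t) := by
    have h3 : hr (cz d 1) (d.wz t) ≤ hr (rp (vd d.z 1)) (d.wz t) := hr_mono (cz_Bd d 1) (rp_Bd _) (cz_rp d le_rfl).1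
    have h4 : hr (rp (vd d.z 1)) (d.wz t) ≤ hr (rp (vd d.z 1)) (rp (vd d.z t)) := by
      refine hr_anti (rp_Bd _) ((cz_rp d ht).2.trans (PLe_of_le fun k => ?_))
      rw [wz_eq]
      exact le_sup_right
    rw [hr_rp] at h4
    have h5 := h_vd_vd d.z ht
    rw [Fintype.card_fin] at h5
    linarith
  have b2 : (d.n : ℝ) * (1 - t) ≤ hr (cz d 1) (fun k => d.wz t k ⊔ l.win t k) :=
    (le_hr_z d h0 ht).trans (hr_anti (cz_Bd d 1) (PLe.sup_le (win_z d ht) (PLe.refl _)))
  have t1 := ((cz_Bd d 1).tendsto (d.wz t)).sub ((cz_Bd d 1).tendsto (fun k => d.wz t k ⊔ l.win t k))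
  have t2 : Tendsto (fun k => I (d.wz t k ⊔ cz d 1 k) (d.wz t k ⊔ l.win t k) (d.wz t k) / (S.F k).n) UF
      (𝓝 (hr (cz d 1) (d.wz t) - hr (cz d 1) (fun k => d.wz t k ⊔ l.win t k))) := by
    refine t1.congr fun k => ?_
    rw [← sub_div]
    congr 1
    rw [I_eq]
    have d1 : d.wz t k ⊔ l.win t k ⊔ d.wz t k = d.wz t k ⊔ l.win t k := sup_of_le_left le_sup_left
    have d2 : h (d.wz t k ⊔ cz d 1 k) (d.wz t k) = h (cz d 1 k) (d.wz t k) := by
      rw [sup_comm, h_sup_right_of_le le_rfl]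
    have d3 : h (d.wz t k ⊔ cz d 1 k) (d.wz t k ⊔ l.win t k) = h (cz d 1 k) (d.wz t k ⊔ l.win t k) := by
      rw [sup_comm (d.wz t k) (cz d 1 k), h_sup_right_of_le le_sup_left]
    rw [d1, d2, d3]
  have h3 : 0 ≤ hr (cz d 1) (d.wz t) - hr (cz d 1) (fun k => d.wz t k ⊔ l.win t k) :=
    ge_of_tendsto t2 (Eventually.of_forall fun k => div_nonneg (I_nonneg _ _ _) (S.F k).pos.le)
  have h4 : hr (cz d 1) (d.wz t) - hr (cz d 1) (fun k => d.wz t k ⊔ l.win t k) = 0 := le_antisymm (by linarith) h3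
  rw [h4] at t2
  have ha : PLe X (fun k => d.wz t k ⊔ cz d 1 k) := by
    refine hp.trans (PLe_of_le fun k => ?_)
    rw [wz_eq, wz_eq]
    exact sup_le (le_sup_left.trans le_sup_left) le_sup_right
  have hb : PLe X (fun k => d.wz t k ⊔ l.win t k) := hw.trans (PLe_of_le fun k => le_sup_right)
  have hI : Nul S (fun k => I (d.wz t k ⊔ cz d 1 k) (d.wz t k ⊔ l.win t k) (d.wz t k)) := t2
  refine ((ha.add hb).add hI).of_le (Eventually.of_forall fun _ => h_nonneg _ _) (Eventually.of_forall fun k => ?_)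
  exact h_inter le_sup_left le_sup_left

end

end Pool.Agent.Helper71.BLD
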