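import Pool.Agent.Helper71.BLD.Nest

/-! NESTED FRAMES: the chain of scales. -/

set_option autoImplicit false

namespace Pool.Agent.Helper71.BLD

open Finset Filter Topology Pool.Agent.Helper69.RK Pool.Agent.Helper31.EC Pool.Agent.Helper31.EC.Sp
open Pool.Agent.Helper31.EC.QS
open Pool.Agent.Helper57.TA
open Pool.Agent.Helper13.AM
open Pool.Agent.Helper77.WDG (WLe WLt wt_add wt_zero wt_single wt_nonneg deg_le_wt)

noncomputable section

variable {S : Sp} {σ : Type} [Fintype σ] {w : σ → ℝ}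

/-- the sum of the exponents is at most the weight -/
theorem sum_le_wgt (hw : ∀ i, 1 ≤ w i) (a : σ →₀ ℕ) : ∑ i, (a i : ℝ) ≤ wgt w a :=
  Finset.sum_le_sum fun i _ => le_mul_of_one_le_right (Nat.cast_nonneg _) (hw i)

theorem Wd.wgt_lt {R : Type*} [CommRing R] {P : σ → MvPolynomial σ R} (hP : Wd w P) {j : σ} {a : σ →₀ ℕ}
    (ha : (P j).coeff a ≠ 0) : wgt w a < w j := by
  obtain ⟨d, hd, h⟩ := hP j
  exact (h a (MvPolynomial.mem_support_iff.mpr ha)).trans_lt hd

/-- one link of the chain -/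
theorem link {W η δ s0 s s' : ℝ} (hw : ∀ j, 1 ≤ w j) (hW : ∀ j, w j ≤ W) (hW1 : 1 ≤ W)
    (hη : ∀ (j : σ) (a : σ →₀ ℕ), wgt w a < w j → wgt w a ≤ w j - η) (hδ : 0 ≤ δ) {n : ℕ}
    (hs : s = s0 + n * δ) (hs' : s' = s0 + (n + 1) * δ) {P Q V : σ → MvPolynomial σ (QS S)} (hP : Wd w P)
    (hQ : Wd w Q) (hV : Wd w V) {ε E : ℝ} (hε : 0 ≤ ε) (hE : 0 ≤ E) (hnε : (W - η * n) * δ ≤ ε)
    (h1 : ∀ j, Fl w s0 (w j * s0 - E) (trs w P Q j))
    (h2 : ∀ j a, (trs w Q V j).coeff a ∈ Id S (w j * s - wgt w a * s')) (j : σ) :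
    Fl w s0 (w j * s0 - (E + W * ε)) (trs w P V j) := by
  have hw0 : ∀ j, 0 < w j := fun j => one_pos.trans_le (hw j)
  have hA : ∀ j, Fl w s0 (w j * s0 - ε) (trs w Q V j) := by
    intro j a
    by_cases h0 : (trs w Q V j).coeff a = 0
    · rw [h0]
      exact (Id S _).zero_mem
    · have h3 : wgt w a < w j := (hQ.trs hw0 hV).wgt_lt h0
      have h4 := hη j a h3
      refine Id_anti ?_ (h2 j a)
      rw [hs, hs']
      show w j * s0 - ε - wgt w a * s0 ≤ _
      have h5 : η * n * δ ≤ (w j - wgt w a) * (n * δ) := by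
        have h6 : η ≤ w j - wgt w a := by linarith
        have h7 : 0 ≤ (n : ℝ) * δ := by positivity
        calc η * n * δ = η * (n * δ) := by ring
          _ ≤ _ := mul_le_mul_of_nonneg_right h6 h7
      have h8 : wgt w a * δ ≤ W * δ := mul_le_mul_of_nonneg_right (h3.le.trans (hW j)) hδ
      nlinarith
  have hWε : ε ≤ W * ε := le_mul_of_one_le_left hε hW1
  rw [trs_trans hw0 hP hQ j]
  refine ((hA j).mono (by linarith)).add ?_
  have h3 := Fl.bind (v := w) (s := s0) (D := W) hε (h1 j) (fun a ha => by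
    have h4 := (hP.trs hw0 hQ).wgt_lt (MvPolynomial.mem_support_iff.mp ha)
    exact (sum_le_wgt hw a).trans (h4.le.trans (hW j))) (tm (trs w Q V)) (fun i => by
      refine Fl.add ((Fl.X i).mono (by linarith)) (hA i))
  exact h3.mono (by linarith)

/-- NESTED FRAMES -/
theorem nest (hw : ∀ j, 1 ≤ w j) {s0 s1 : ℝ} (h0 : 0 ≤ s0) (h01 : s0 ≤ s1) (h1 : ∀ j, w j * s1 ≤ 1) {Q : σ → QS S}
    {K : ℝ → S.L} {P : ℝ → σ → MvPolynomial σ (QS S)} {X : ℝ → σ → QS S}
    (mono : ∀ s s', s0 ≤ s → s ≤ s' → s' ≤ s1 → K s ≤ K s')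
    (wd : ∀ s, s0 ≤ s → s ≤ s1 → Wd w (P s)) (cf : ∀ s, s0 ≤ s → s ≤ s1 → ∀ j, P s j ∈ PK (K s))
    (eq : ∀ s, s0 ≤ s → s ≤ s1 → ∀ j, Q j = MvPolynomial.eval (Us w s (X s)) (tm (P s) j))
    (nr : ∀ s, s0 < s → s ≤ s1 → NRx (fun i => ∃ j, w i < w j) (K s) (X s)) (j : σ) (a : σ →₀ ℕ) :
    (trs w (P s0) (P s1) j).coeff a ∈ Id S ((w j - wgt w a) * s0) := by
  classical
  have hw0 : ∀ j, 0 < w j := fun j => one_pos.trans_le (hw j)
  by_cases hne : (trs w (P s0) (P s1) j).coeff a = 0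
  · rw [hne]
    exact (Id S _).zero_mem
  obtain ⟨η, hη0, hη⟩ := exists_gap hw
  obtain ⟨W, hW1, hW⟩ : ∃ W : ℝ, 1 ≤ W ∧ ∀ j, w j ≤ W := by
    refine ⟨1 + ∑ j, w j, ?_, fun j => ?_⟩
    · have := Finset.sum_nonneg (s := univ) (f := w) fun i _ => (hw0 i).le
      linarith
    · have := Finset.single_le_sum (f := w) (fun i _ => (hw0 i).le) (Finset.mem_univ j)
      linarith
  obtain ⟨k0, hk0⟩ := exists_nat_ge (W / η)
  rw [div_le_iff₀ hη0] at hk0
  have hwa : wgt w a < w j := ((wd s0 le_rfl h01).trs hw0 (wd s1 h01 le_rfl)).wgt_lt hne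
  have hwa0 : 0 ≤ wgt w a := wgt_nonneg (fun j => (hw0 j).le) a
  have hwj : w j * s0 ≤ 1 := (mul_le_mul_of_nonneg_left h01 (hw0 j).le).trans (h1 j)
  refine mem_Id_of_lt (by nlinarith) fun t ht => ?_
  -- number of steps
  obtain ⟨N, hN⟩ := exists_nat_ge (W * W * k0 * (s1 - s0) / ((w j - wgt w a) * s0 - t))
  have hpos : 0 < (w j - wgt w a) * s0 - t := by linarith
  rw [div_le_iff₀ hpos] at hN
  set δ : ℝ := (s1 - s0) / (N + 1) with hδ
  have hN1 : (0 : ℝ) < N + 1 := by positivity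
  have hδ0 : 0 ≤ δ := div_nonneg (by linarith) hN1.le
  have hδN : s0 + ((N : ℝ) + 1) * δ = s1 := by
    rw [hδ]
    field_simp
    ring
  have hle : ∀ n : ℕ, n ≤ N + 1 → s0 + n * δ ≤ s1 := by
    intro n hn
    rw [← hδN]
    have : (n : ℝ) ≤ N + 1 := by exact_mod_cast hn
    have := mul_le_mul_of_nonneg_right this hδ0
    linarith
  have hge : ∀ n : ℕ, s0 ≤ s0 + n * δ := fun n => by
    have : 0 ≤ (n : ℝ) * δ := by positivity
    linarith
  have key : ∀ n : ℕ, n ≤ N + 1 → ∀ j, Fl w s0 (w j * s0 - W * (W * δ) * (min n k0 : ℕ))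
      (trs w (P s0) (P (s0 + n * δ)) j) := by
    intro n
    induction n with
    | zero =>
      intro _ j
      rw [Nat.cast_zero, zero_mul, add_zero, trs_self hw0 (wd s0 le_rfl h01)]
      exact Fl.zero
    | succ n ih =>
      intro hn j
      have hn' : n ≤ N + 1 := by omega
      have hcast : s0 + ((n + 1 : ℕ) : ℝ) * δ = s0 + ((n : ℝ) + 1) * δ := by push_cast; ring
      have hlt : s0 + n * δ ≤ s0 + ((n + 1 : ℕ) : ℝ) * δ := by
        rw [hcast]
        linarith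
      rcases eq_or_lt_of_le h01 with heq01 | hlt01
      · -- degenerate
        have hδz : δ = 0 := by rw [hδ, ← heq01, sub_self, zero_div]
        have hz : s0 + ((n + 1 : ℕ) : ℝ) * δ = s0 := by rw [hδz, mul_zero, add_zero]
        rw [hz, trs_self hw0 (wd s0 le_rfl h01)]
        exact Fl.zero
      have hδp : 0 < δ := div_pos (by linarith) hN1
      have hstep : ∀ j a, (trs w (P (s0 + n * δ)) (P (s0 + ((n + 1 : ℕ) : ℝ) * δ)) j).coeff a ∈
          Id S (w j * (s0 + n * δ) - wgt w a * (s0 + ((n : ℝ) + 1) * δ)) := by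
        intro j a
        have h2 := one_step (K := K (s0 + ((n + 1 : ℕ) : ℝ) * δ)) hw (h0.trans (hge n)) hlt (fun j =>
          (mul_le_mul_of_nonneg_left (hle n hn') (hw0 j).le).trans (h1 j)) (wd _ (hge n) (hle n hn'))
          (fun j => PK_mono (mono _ _ (hge n) hlt (hle _ hn)) (cf _ (hge n) (hle n hn') j))
          (fun j => cf _ (hge (n + 1)) (hle _ hn) j) (eq _ (hge n) (hle n hn')) (eq _ (hge (n + 1)) (hle _ hn))
          (wd _ (hge (n + 1)) (hle _ hn)) (nr _ (by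
            rw [hcast]
            have : 0 < ((n : ℝ) + 1) * δ := by positivity
            linarith) (hle _ hn)) j a
        rw [hcast] at h2 ⊢
        exact h2
      by_cases hk : n < k0
      · have h3 := link (E := W * (W * δ) * (min n k0 : ℕ)) (ε := W * δ) hw hW hW1 hη hδ0 (n := n) rfl rfl
          (wd s0 le_rfl h01) (wd _ (hge n) (hle n hn')) (wd _ (hge (n + 1)) (hle _ hn)) (by positivity) (by positivity)
          (by nlinarith [mul_nonneg (mul_nonneg hη0.le (Nat.cast_nonneg (α := ℝ) n)) hδ0]) (ih hn') hstep j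
        refine h3.mono ?_
        have h4 : min (n + 1) k0 = min n k0 + 1 := by omega
        rw [h4]
        push_cast
        nlinarith
      · have h3 := link (E := W * (W * δ) * (min n k0 : ℕ)) (ε := 0) hw hW hW1 hη hδ0 (n := n) rfl rfl
          (wd s0 le_rfl h01) (wd _ (hge n) (hle n hn')) (wd _ (hge (n + 1)) (hle _ hn)) le_rfl (by positivity)
          (by
            have h5 : (k0 : ℝ) ≤ n := by exact_mod_cast not_lt.mp hk
            have h6 : W ≤ η * n := by nlinarith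
            nlinarith) (ih hn') hstep j
        refine h3.mono ?_
        have h4 : min (n + 1) k0 = min n k0 := by omega
        rw [h4]
        linarith
  have h2 := key (N + 1) le_rfl j a
  have h3 : s0 + ((N + 1 : ℕ) : ℝ) * δ = s1 := by
    rw [← hδN]
    push_cast
    ring
  rw [h3] at h2
  refine Id_anti ?_ h2
  have h4 : ((min (N + 1) k0 : ℕ) : ℝ) ≤ k0 := by exact_mod_cast min_le_right _ _
  have h5 : W * (W * δ) * (min (N + 1) k0 : ℕ) ≤ W * (W * δ) * k0 := mul_le_mul_of_nonneg_left h4 (by positivity)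
  have h6 : W * (W * δ) * k0 ≤ (w j - wgt w a) * s0 - t := by
    have h7 : W * (W * δ) * k0 = W * W * k0 * (s1 - s0) / (N + 1) := by
      rw [hδ]; ring
    rw [h7, div_le_iff₀ hN1]
    nlinarith
  show t ≤ w j * s0 - _ - wgt w a * s0
  linarith

end

end Pool.Agent.Helper71.BLD
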