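import Pool.Agent.Helper77.WDG.Wd
import Pool.Agent.Helper57.TA.Jet

/-! ALL DIMENSIONS, builder: polynomials of level `L` in the box of scale `s` (coefficients of weighted degree `m` have
size `2 ^ (- (L - m s) n)`); sums, products, substitutions; the gap of the weights. -/

set_option autoImplicit false

namespace Pool.Agent.Helper71.BLD

open Finset Filter Topology Pool.Agent.Helper69.RK Pool.Agent.Helper31.EC Pool.Agent.Helper31.EC.Sp
open Pool.Agent.Helper31.EC.QS
open Pool.Agent.Helper57.TA (sc mul_mem_Id)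
open Pool.Agent.Helper77.WDG

noncomputable section

variable {S : Sp} {σ τ : Type} [Fintype σ] [Fintype τ]

theorem mul_mem_Id' {f g : QS S} {r s : ℝ} (hf : f ∈ Id S r) (hg : g ∈ Id S s) : f * g ∈ Id S (r + s) := by
  rcases le_total r 0 with h | h
  · exact Id_anti (by linarith) ((Id S s).mul_mem_left f hg)
  · rcases le_total s 0 with h' | h'
    · exact Id_anti (by linarith) ((Id S r).mul_mem_right g hf)
    · exact mul_mem_Id h h' hf hg

/-- polynomials of LEVEL `L` in the box of scale `s` -/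
def Fl (w : σ → ℝ) (s L : ℝ) (p : MvPolynomial σ (QS S)) : Prop := ∀ a, p.coeff a ∈ Id S (L - wt w a * s)

namespace Fl

variable {w : σ → ℝ} {v : τ → ℝ} {s L L' : ℝ} {p q : MvPolynomial σ (QS S)}

theorem mono (h : Fl w s L p) (hL : L' ≤ L) : Fl w s L' p := fun a => Id_anti (by linarith) (h a)

theorem zero : Fl w s L (0 : MvPolynomial σ (QS S)) := fun a => by
  rw [MvPolynomial.coeff_zero]
  exact (Id S _).zero_mem

theorem add (hp : Fl w s L p) (hq : Fl w s L q) : Fl w s L (p + q) := fun a => by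
  rw [MvPolynomial.coeff_add]
  exact (Id S _).add_mem (hp a) (hq a)

theorem neg (hp : Fl w s L p) : Fl w s L (-p) := fun a => by
  rw [MvPolynomial.coeff_neg]
  exact (Id S _).neg_mem (hp a)

theorem sub (hp : Fl w s L p) (hq : Fl w s L q) : Fl w s L (p - q) := by
  rw [sub_eq_add_neg]
  exact hp.add hq.neg

theorem sum {ι : Type*} (t : Finset ι) (f : ι → MvPolynomial σ (QS S)) (h : ∀ i ∈ t, Fl w s L (f i)) :
    Fl w s L (∑ i ∈ t, f i) := fun a => by
  rw [MvPolynomial.coeff_sum]
  exact (Id S _).sum_mem fun i hi => h i hi a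

theorem mul (hp : Fl w s L p) (hq : Fl w s L' q) : Fl w s (L + L') (p * q) := by
  classical
  intro a
  rw [MvPolynomial.coeff_mul]
  refine (Id S _).sum_mem fun x hx => ?_
  rw [Finset.HasAntidiagonal.mem_antidiagonal] at hx
  have h1 := mul_mem_Id' (hp x.1) (hq x.2)
  have h2 : L + L' - wt w a * s = L - wt w x.1 * s + (L' - wt w x.2 * s) := by
    rw [← hx, wt_add]; ring
  rw [h2]
  exact h1

theorem C {c : QS S} (hc : c ∈ Id S L) : Fl w s L (MvPolynomial.C c : MvPolynomial σ (QS S)) := by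
  classical
  intro a
  rw [MvPolynomial.coeff_C]
  split_ifs with h
  · rw [← h, wt_zero, zero_mul, sub_zero]
    exact hc
  · exact (Id S _).zero_mem

theorem one : Fl w s 0 (1 : MvPolynomial σ (QS S)) := by
  rw [← MvPolynomial.C_1]
  exact Fl.C (mem_Id_nonpos le_rfl)

theorem X (i : σ) : Fl w s (w i * s) (MvPolynomial.X i : MvPolynomial σ (QS S)) := by
  classical
  intro a
  rw [MvPolynomial.coeff_X]
  split_ifs with h
  · rw [← h, wt_single, Nat.cast_one, one_mul, sub_self]
    exact mem_Id_nonpos le_rfl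
  · exact (Id S _).zero_mem

theorem prod {ι : Type*} (t : Finset ι) (f : ι → MvPolynomial σ (QS S)) (e : ι → ℝ) (h : ∀ i ∈ t, Fl w s (e i) (f i)) :
    Fl w s (∑ i ∈ t, e i) (∏ i ∈ t, f i) := by
  classical
  induction t using Finset.induction_on with
  | empty =>
    rw [Finset.sum_empty, Finset.prod_empty]
    exact Fl.one
  | insert a t ha ih =>
    rw [Finset.sum_insert ha, Finset.prod_insert ha]
    exact (h a (Finset.mem_insert_self a t)).mul (ih fun i hi => h i (Finset.mem_insert_of_mem hi))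

theorem pow (hp : Fl w s L p) (n : ℕ) : Fl w s (n * L) (p ^ n) := by
  have h1 := Fl.prod (Finset.range n) (fun _ => p) (fun _ => L) fun _ _ => hp
  rwa [Finset.sum_const, Finset.prod_const, Finset.card_range, nsmul_eq_mul] at h1

/-- SUBSTITUTION with loss `ε` in every variable -/
theorem bind {D ε : ℝ} (hε : 0 ≤ ε) (hp : Fl w s L p) (hD : ∀ a ∈ p.support, ∑ i, (a i : ℝ) ≤ D)
    (φ : σ → MvPolynomial τ (QS S)) (hφ : ∀ i, Fl v s (w i * s - ε) (φ i)) :
    Fl v s (L - D * ε) (MvPolynomial.bind₁ φ p) := by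
  classical
  have h1 : MvPolynomial.bind₁ φ p = ∑ a ∈ p.support, MvPolynomial.C (p.coeff a) * ∏ i, φ i ^ a i := by
    conv_lhs => rw [p.as_sum]
    rw [map_sum]
    refine Finset.sum_congr rfl fun a _ => ?_
    rw [MvPolynomial.bind₁_monomial]
    congr 1
    exact Finset.prod_subset (Finset.subset_univ _) fun i _ hi => by
      rw [Finsupp.notMem_support_iff.1 hi, pow_zero]
  rw [h1]
  refine Fl.sum _ _ fun a ha => ?_
  have h2 := Fl.prod (S := S) (w := v) (s := s) Finset.univ (fun i => φ i ^ a i) (fun i => (a i : ℝ) * (w i * s - ε))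
    fun i _ => (hφ i).pow _
  have h3 := (Fl.C (w := v) (s := s) (hp a)).mul h2
  refine h3.mono ?_
  have h4 : ∑ i, (a i : ℝ) * (w i * s - ε) = wt w a * s - (∑ i, (a i : ℝ)) * ε := by
    unfold Pool.Agent.Helper77.WDG.wt
    rw [Finset.sum_mul, Finset.sum_mul, ← Finset.sum_sub_distrib]
    refine Finset.sum_congr rfl fun i _ => ?_
    ring
  rw [h4]
  have h5 := mul_le_mul_of_nonneg_right (hD a ha) hε
  linarith

/-- values -/
theorem eval (hp : Fl w s L p) {U : σ → QS S} (hU : ∀ i, U i ∈ Id S (w i * s)) : MvPolynomial.eval U p ∈ Id S L := by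
  classical
  rw [MvPolynomial.eval_eq']
  refine (Id S _).sum_mem fun a _ => ?_
  have h1 : ∀ t : Finset σ, ∏ i ∈ t, U i ^ a i ∈ Id S (∑ i ∈ t, (a i : ℝ) * (w i * s)) := by
    intro t
    induction t using Finset.induction_on with
    | empty =>
      rw [Finset.sum_empty, Finset.prod_empty]
      exact mem_Id_nonpos le_rfl
    | insert j t hj ih =>
      rw [Finset.sum_insert hj, Finset.prod_insert hj]
      refine mul_mem_Id' ?_ ih
      have h2 : ∀ n : ℕ, U j ^ n ∈ Id S ((n : ℝ) * (w j * s)) := by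
        intro n
        induction n with
        | zero =>
          rw [Nat.cast_zero, zero_mul]
          exact mem_Id_nonpos le_rfl
        | succ n ih =>
          rw [pow_succ, Nat.cast_succ, add_mul, one_mul]
          exact mul_mem_Id' ih (hU j)
      exact h2 _
  have h2 := mul_mem_Id' (hp a) (h1 Finset.univ)
  have h3 : L - wt w a * s + ∑ i, (a i : ℝ) * (w i * s) = L := by
    have h4 : ∑ i, (a i : ℝ) * (w i * s) = wt w a * s := by
      unfold Pool.Agent.Helper77.WDG.wt
      rw [Finset.sum_mul]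
      exact Finset.sum_congr rfl fun i _ => by ring
    rw [h4, sub_add_cancel]
  rw [h3] at h2
  exact h2

end Fl

/-! ### the gap -/

/-- weighted degrees less than `w j` stay away from `w j` -/
theorem exists_gap {w : σ → ℝ} (hw : ∀ j, 1 ≤ w j) :
    ∃ η : ℝ, 0 < η ∧ ∀ (j : σ) (a : σ →₀ ℕ), wt w a < w j → wt w a ≤ w j - η := by
  classical
  obtain ⟨B, hB⟩ : ∃ B : ℕ, ∀ j, w j ≤ B := by
    obtain ⟨B, hB⟩ := exists_nat_ge (∑ j, w j)
    refine ⟨B, fun j => le_trans ?_ hB⟩
    exact Finset.single_le_sum (f := w) (fun i _ => zero_le_one.trans (hw i)) (Finset.mem_univ j)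
  set b : σ →₀ ℕ := Finsupp.equivFunOnFinite.symm (fun _ => B) with hb
  have hfin : (Set.Iic b).Finite := Set.finite_Iic b
  set T : Finset (σ × (σ →₀ ℕ)) := (Finset.univ ×ˢ hfin.toFinset).filter fun x => wt w x.2 < w x.1 with hT
  have hmem : ∀ (j : σ) (a : σ →₀ ℕ), wt w a < w j → (j, a) ∈ T := by
    intro j a h
    rw [hT, Finset.mem_filter, Finset.mem_product]
    refine ⟨⟨Finset.mem_univ _, ?_⟩, h⟩
    rw [Set.Finite.mem_toFinset, Set.mem_Iic]
    intro i
    show a i ≤ B
    have h1 : (a i : ℝ) * w i ≤ wt w a :=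
      Finset.single_le_sum (f := fun i => (a i : ℝ) * w i)
        (fun j _ => mul_nonneg (Nat.cast_nonneg _) (zero_le_one.trans (hw j))) (Finset.mem_univ i)
    have h2 : (a i : ℝ) ≤ a i * w i := le_mul_of_one_le_right (Nat.cast_nonneg _) (hw i)
    have h3 : (a i : ℝ) ≤ B := by linarith [hB j]
    exact_mod_cast h3
  rcases T.eq_empty_or_nonempty with h0 | h0
  · refine ⟨1, one_pos, fun j a h => ?_⟩
    have := hmem j a h
    rw [h0] at this
    exact absurd this (Finset.notMem_empty _)
  · obtain ⟨x, hx, hmin⟩ := T.exists_min_image (fun x => w x.1 - wt w x.2) h0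
    refine ⟨w x.1 - wt w x.2, ?_, fun j a h => ?_⟩
    · rw [hT, Finset.mem_filter] at hx
      linarith [hx.2]
    · have := hmin (j, a) (hmem j a h)
      dsimp only at this
      linarith

end

end Pool.Agent.Helper71.BLD
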