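import Pool.Agent.Helper77.WDG.Wd

/-! TRANSITIONS of triangular maps of reduced weighted degree, any finite index set (helper77's calculus without an order
of the coordinates): `tm P = (X_j + P_j)`, `P_j` of weighted degree less than `w j`; solution of `H_j + P_j(H) = G_j`;
transition `trs P Q`; coefficients in a subring; change of rings. -/

set_option autoImplicit false

namespace Pool.Agent.Helper71.BLD

open MvPolynomial Finset Pool.Agent.Helper77.WDG

noncomputable section

variable {σ τ : Type} [Fintype σ] [Fintype τ] {R : Type*} [CommRing R] {w : σ → ℝ}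

/-- `P j` has weighted degree less than `w j` -/
def Wd (w : σ → ℝ) (P : σ → MvPolynomial σ R) : Prop := ∀ j, WLt w (w j) (P j)

/-- the triangular map -/
def tm (P : σ → MvPolynomial σ R) (j : σ) : MvPolynomial σ R := X j + P j

theorem Wd.vars {P : σ → MvPolynomial σ R} (hw : ∀ j, 0 < w j) (hP : Wd w P) (j i : σ) (hi : i ∈ (P j).vars) :
    w i < w j := by
  rw [MvPolynomial.mem_vars_iff_mem_support] at hi
  obtain ⟨a, ha, hi⟩ := hi
  rw [Finsupp.mem_support_iff] at hi
  obtain ⟨d, hd, h⟩ := hP j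
  have h1 : (a i : ℝ) * w i ≤ wt w a :=
    Finset.single_le_sum (f := fun i => (a i : ℝ) * w i) (fun j _ => mul_nonneg (Nat.cast_nonneg _) (hw j).le)
      (Finset.mem_univ i)
  have h2 : (1 : ℝ) ≤ a i := by exact_mod_cast Nat.one_le_iff_ne_zero.mpr hi
  have h3 : w i ≤ a i * w i := le_mul_of_one_le_left (hw i).le h2
  linarith [h a ha]

omit [Fintype σ] [Fintype τ] in
theorem bind_congr {f g : σ → MvPolynomial τ R} {p : MvPolynomial σ R} (h : ∀ i ∈ p.vars, f i = g i) :
    bind₁ f p = bind₁ g p := by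
  have := MvPolynomial.hom_congr_vars (f₁ := (bind₁ f : MvPolynomial σ R →ₐ[R] _).toRingHom)
    (f₂ := (bind₁ g : MvPolynomial σ R →ₐ[R] _).toRingHom) (p₁ := p) (p₂ := p) (by
      ext x
      simp) (fun i hi _ => by
      simpa using h i hi) rfl
  exact this

omit [Fintype σ] in
theorem eval_congr {f g : σ → R} {p : MvPolynomial σ R} (h : ∀ i ∈ p.vars, f i = g i) :
    eval f p = eval g p := by
  refine MvPolynomial.hom_congr_vars (f₁ := eval f) (f₂ := eval g) (p₁ := p) (p₂ := p) ?_ (fun i hi _ => ?_) rfl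
  · ext x
    simp
  · simpa using h i hi

/-- number of coordinates of lower weight -/
def rk (w : σ → ℝ) (j : σ) : ℕ := by
  classical exact (univ.filter fun i => w i < w j).card

theorem rk_lt {i j : σ} (h : w i < w j) : rk w i < rk w j := by
  classical
  unfold rk
  apply Finset.card_lt_card
  refine ⟨fun x hx => ?_, fun hx => ?_⟩
  · rw [Finset.mem_filter] at hx ⊢
    exact ⟨hx.1, hx.2.trans h⟩
  · have h1 := hx (Finset.mem_filter.mpr ⟨Finset.mem_univ i, h⟩)
    rw [Finset.mem_filter] at h1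
    exact lt_irrefl _ h1.2

open Classical in
/-- the solution of `H_j + P_j(H) = G_j` -/
def slv {σ τ : Type} [Fintype σ] (w : σ → ℝ) (P : σ → MvPolynomial σ R) (G : σ → MvPolynomial τ R) (j : σ) :
    MvPolynomial τ R :=
  G j - bind₁ (fun i => if _h : w i < w j then slv w P G i else 0) (P j)
termination_by rk w j
decreasing_by exact rk_lt _h

variable {P Q V : σ → MvPolynomial σ R} {G H : σ → MvPolynomial τ R}

omit [Fintype τ] in
theorem slv_eq (hw : ∀ j, 0 < w j) (hP : Wd w P) (G : σ → MvPolynomial τ R) (j : σ) :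
    slv w P G j = G j - bind₁ (slv w P G) (P j) := by
  conv_lhs => rw [slv]
  congr 1
  refine bind_congr fun i hi => ?_
  rw [dif_pos (hP.vars hw j i hi)]

omit [Fintype τ] in
theorem slv_add (hw : ∀ j, 0 < w j) (hP : Wd w P) (G : σ → MvPolynomial τ R) (j : σ) :
    slv w P G j + bind₁ (slv w P G) (P j) = G j := by
  rw [slv_eq hw hP G j, sub_add_cancel]

/-- induction on the weight -/
theorem wt_ind (w : σ → ℝ) {p : σ → Prop} (h : ∀ j, (∀ i, w i < w j → p i) → p j) (j : σ) : p j := by
  have key : ∀ n : ℕ, ∀ j : σ, rk w j = n → p j := by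
    intro n
    induction n using Nat.strong_induction_on with
    | _ n ih =>
      intro j hj
      refine h j fun i hi => ih (rk w i) ?_ i rfl
      rw [← hj]
      exact rk_lt hi
  exact key _ j rfl

omit [Fintype τ] in
theorem slv_unique (hw : ∀ j, 0 < w j) (hP : Wd w P) (h : ∀ j, H j + bind₁ H (P j) = G j) : H = slv w P G := by
  funext j
  refine wt_ind w (p := fun j => H j = slv w P G j) (fun j ih => ?_) j
  rw [slv_eq hw hP G j, ← h j]
  have h1 : bind₁ H (P j) = bind₁ (slv w P G) (P j) := bind_congr fun i hi => ih i (hP.vars hw j i hi)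
  rw [h1, add_sub_cancel_right]

omit [Fintype σ] [Fintype τ] in
/-- substitution into the triangular map -/
theorem bind_tm (H : σ → MvPolynomial τ R) (j : σ) : bind₁ H (tm P j) = H j + bind₁ H (P j) := by
  rw [tm, map_add, bind₁_X_right]

/-- the TRANSITION between two frames `x = tm P (U) = tm Q (U')`: `U = tm (trs P Q) (U')` -/
def trs (w : σ → ℝ) (P Q : σ → MvPolynomial σ R) (j : σ) : MvPolynomial σ R := slv w P (tm Q) j - X j

theorem tm_trs (j : σ) : tm (trs w P Q) j = slv w P (tm Q) j := by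
  rw [tm, trs, add_sub_cancel]

theorem bind_trs (hw : ∀ j, 0 < w j) (hP : Wd w P) (j : σ) : bind₁ (tm (trs w P Q)) (tm P j) = tm Q j := by
  have h1 : tm (trs w P Q) = slv w P (tm Q) := funext fun j => tm_trs j
  rw [bind_tm, h1, slv_add hw hP]

theorem eq_of_bind (hw : ∀ j, 0 < w j) {A B : σ → MvPolynomial σ R} (hP : Wd w P)
    (h : ∀ j, bind₁ (tm A) (tm P j) = bind₁ (tm B) (tm P j)) : A = B := by
  have h1 : tm A = slv w P (fun j => bind₁ (tm B) (tm P j)) :=
    slv_unique hw hP fun j => by rw [← h j, bind_tm]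
  have h2 : tm B = slv w P (fun j => bind₁ (tm B) (tm P j)) :=
    slv_unique hw hP fun j => by rw [bind_tm]
  funext j
  have h3 := congrFun (h1.trans h2.symm) j
  exact add_left_cancel h3

theorem trs_self (hw : ∀ j, 0 < w j) (hP : Wd w P) : trs w P P = 0 := by
  refine eq_of_bind hw hP fun j => ?_
  rw [bind_trs hw hP]
  have h1 : tm (0 : σ → MvPolynomial σ R) = X := by
    funext i
    rw [tm, Pi.zero_apply, add_zero]
  rw [h1, bind₁_X_left]
  rfl

theorem trs_trans (hw : ∀ j, 0 < w j) (hP : Wd w P) (hQ : Wd w Q) (j : σ) :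
    trs w P V j = trs w Q V j + bind₁ (tm (trs w Q V)) (trs w P Q j) := by
  have h1 : trs w P V = fun j => trs w Q V j + bind₁ (tm (trs w Q V)) (trs w P Q j) := by
    refine eq_of_bind hw hP fun j => ?_
    rw [bind_trs hw hP]
    have h2 : tm (fun j => trs w Q V j + bind₁ (tm (trs w Q V)) (trs w P Q j)) =
        fun i => bind₁ (tm (trs w Q V)) (tm (trs w P Q) i) := by
      funext i
      rw [bind_tm, tm, tm, add_assoc]
    rw [h2, ← bind₁_bind₁, bind_trs hw hP, bind_trs hw hQ]
  exact congrFun h1 j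

/-! ### weighted degrees -/

omit [Fintype τ] in
theorem Wd.tm_le (hP : Wd w P) (j : σ) : WLe w (w j) (tm P j) := (WLe.X le_rfl).add (hP j).le

theorem Wd.slv_le {v : τ → ℝ} (hw : ∀ j, 0 < w j) (hP : Wd w P) (hG : ∀ j, WLe v (w j) (G j)) (j : σ) :
    WLe v (w j) (slv w P G j) := by
  refine wt_ind w (p := fun j => WLe v (w j) (slv w P G j)) (fun j ih => ?_) j
  rw [slv_eq hw hP G j]
  exact (hG j).sub ((hP j).le.bind _ fun i hi => ih i (hP.vars hw j i hi))

theorem trs_eq (hw : ∀ j, 0 < w j) (hP : Wd w P) (j : σ) :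
    trs w P Q j = Q j - bind₁ (tm (trs w P Q)) (P j) := by
  have h1 : tm (trs w P Q) = slv w P (tm Q) := funext fun j => tm_trs j
  have h2 := slv_eq hw hP (tm Q) j
  rw [h1, trs, h2, tm]
  ring

theorem Wd.trs (hw : ∀ j, 0 < w j) (hP : Wd w P) (hQ : Wd w Q) : Wd w (trs w P Q) := by
  intro j
  rw [trs_eq hw hP j]
  refine (hQ j).sub ((hP j).bind _ fun i _ => ?_)
  rw [tm_trs]
  exact hP.slv_le hw hQ.tm_le i

/-! ### coefficients in a subring -/

/-- polynomials with coefficients in a subring -/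
def CB (σ : Type) (B : Subring R) : Subring (MvPolynomial σ R) where
  carrier := {p | ∀ a, p.coeff a ∈ B}
  mul_mem' := by
    classical
    intro p q hp hq a
    rw [coeff_mul]
    exact B.sum_mem fun x _ => B.mul_mem (hp x.1) (hq x.2)
  one_mem' := by
    classical
    intro a
    rw [coeff_one]
    split_ifs
    · exact B.one_mem
    · exact B.zero_mem
  add_mem' := by
    intro p q hp hq a
    rw [coeff_add]
    exact B.add_mem (hp a) (hq a)
  zero_mem' := by
    intro a
    rw [coeff_zero]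
    exact B.zero_mem
  neg_mem' := by
    intro p hp a
    rw [coeff_neg]
    exact B.neg_mem (hp a)

theorem mem_CB {σ : Type} {B : Subring R} {p : MvPolynomial σ R} : p ∈ CB σ B ↔ ∀ a, p.coeff a ∈ B := Iff.rfl

theorem CB_C {σ : Type} {B : Subring R} {c : R} (hc : c ∈ B) : (MvPolynomial.C c : MvPolynomial σ R) ∈ CB σ B := by
  classical
  intro a
  rw [coeff_C]
  split_ifs
  · exact hc
  · exact B.zero_mem

theorem CB_X {σ : Type} (B : Subring R) (i : σ) : (X i : MvPolynomial σ R) ∈ CB σ B := by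
  classical
  intro a
  rw [coeff_X]
  split_ifs
  · exact B.one_mem
  · exact B.zero_mem

theorem CB_bind {σ τ : Type} {B : Subring R} {p : MvPolynomial σ R} (hp : p ∈ CB σ B) {φ : σ → MvPolynomial τ R}
    (hφ : ∀ i ∈ p.vars, φ i ∈ CB τ B) : bind₁ φ p ∈ CB τ B := by
  classical
  have h1 : bind₁ φ p = ∑ a ∈ p.support, MvPolynomial.C (p.coeff a) * ∏ i ∈ a.support, φ i ^ a i := by
    conv_lhs => rw [p.as_sum]
    rw [map_sum]
    exact Finset.sum_congr rfl fun a _ => bind₁_monomial _ _ _
  rw [h1]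
  refine (CB τ B).sum_mem fun a ha => (CB τ B).mul_mem (CB_C (hp a)) ((CB τ B).prod_mem fun i hi =>
    (CB τ B).pow_mem (hφ i ?_) _)
  rw [MvPolynomial.mem_vars_iff_mem_support]
  exact ⟨a, ha, hi⟩

omit [Fintype τ] in
theorem slv_CB {B : Subring R} (hw : ∀ j, 0 < w j) (hP : Wd w P) (hPB : ∀ j, P j ∈ CB σ B)
    (hG : ∀ j, G j ∈ CB τ B) (j : σ) : slv w P G j ∈ CB τ B := by
  refine wt_ind w (p := fun j => slv w P G j ∈ CB τ B) (fun j ih => ?_) j
  rw [slv_eq hw hP G j]
  exact (CB τ B).sub_mem (hG j) (CB_bind (hPB j) fun i hi => ih i (hP.vars hw j i hi))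

theorem trs_CB {B : Subring R} (hw : ∀ j, 0 < w j) (hP : Wd w P) (hPB : ∀ j, P j ∈ CB σ B)
    (hQB : ∀ j, Q j ∈ CB σ B) (j : σ) : trs w P Q j ∈ CB σ B :=
  (CB σ B).sub_mem (slv_CB hw hP hPB (fun i => (CB σ B).add_mem (CB_X B i) (hQB i)) j) (CB_X B j)

/-! ### change of rings -/

theorem WLt_map {A : Type*} [CommRing A] (φ : R →+* A) {v : σ → ℝ} {d : ℝ} {p : MvPolynomial σ R} (h : WLt v d p) :
    WLt v d (MvPolynomial.map φ p) := by
  obtain ⟨d', h1, h2⟩ := h
  exact ⟨d', h1, fun a ha => h2 a (MvPolynomial.support_map_subset _ _ ha)⟩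

theorem Wd.map {A : Type*} [CommRing A] (φ : R →+* A) (hP : Wd w P) : Wd w (fun j => MvPolynomial.map φ (P j)) :=
  fun j => WLt_map φ (hP j)

theorem trs_map {A : Type*} [CommRing A] (φ : R →+* A) (hw : ∀ j, 0 < w j) (hP : Wd w P) (j : σ) :
    MvPolynomial.map φ (trs w P Q j) = trs w (fun j => MvPolynomial.map φ (P j)) (fun j => MvPolynomial.map φ (Q j)) j := by
  have h1 : (fun j => MvPolynomial.map φ (trs w P Q j)) =
      trs w (fun j => MvPolynomial.map φ (P j)) (fun j => MvPolynomial.map φ (Q j)) := by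
    refine eq_of_bind hw (hP.map φ) fun j => ?_
    rw [bind_trs hw (hP.map φ)]
    have h2 := congrArg (MvPolynomial.map φ) (bind_trs (Q := Q) hw hP j)
    have h3 : ∀ (F : σ → MvPolynomial σ R) (j : σ), MvPolynomial.map φ (tm F j) = tm (fun j => MvPolynomial.map φ (F j)) j := by
      intro F j
      rw [tm, tm, map_add, MvPolynomial.map_X]
    rw [MvPolynomial.map_bind₁, h3, h3] at h2
    rw [← h2]
    congr 1
    congr 1
    funext i
    rw [h3]
  exact congrFun h1 j

/-! ### evaluation -/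

omit [Fintype σ] in
theorem eval_tm (u : σ → R) (j : σ) : eval u (tm P j) = u j + eval u (P j) := by
  rw [tm, map_add, eval_X]

omit [Fintype σ] [Fintype τ] in
theorem eval_bind (u : τ → R) (f : σ → MvPolynomial τ R) (p : MvPolynomial σ R) :
    eval u (bind₁ f p) = eval (fun i => eval u (f i)) p :=
  MvPolynomial.eval₂Hom_bind₁ (RingHom.id R) u f p

/-- uniqueness of the solution at a point -/
theorem eval_unique (hw : ∀ j, 0 < w j) (hP : Wd w P) {a b : σ → R}
    (h : ∀ j, a j + eval a (P j) = b j + eval b (P j)) : a = b := by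
  funext j
  refine wt_ind w (p := fun j => a j = b j) (fun j ih => ?_) j
  have h1 : eval a (P j) = eval b (P j) := eval_congr fun i hi => ih i (hP.vars hw j i hi)
  have h3 := h j
  rw [h1] at h3
  exact add_right_cancel h3

/-- the transition at a point -/
theorem eval_trs (hw : ∀ j, 0 < w j) (hP : Wd w P) {U U' : σ → R}
    (h : ∀ j, eval U (tm P j) = eval U' (tm Q j)) (j : σ) : U j = U' j + eval U' (trs w P Q j) := by
  have h1 : U = fun i => eval U' (tm (trs w P Q) i) := by
    refine eval_unique hw hP fun j => ?_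
    have h2 := h j
    rw [← bind_trs (Q := Q) hw hP j, eval_bind, eval_tm, eval_tm] at h2
    exact h2
  have h2 := congrFun h1 j
  rw [h2, eval_tm]

end

end Pool.Agent.Helper71.BLD
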