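import Pool.Agent.Helper71.BLD.Fil
import Pool.Agent.Helper71.BLD.Trs
import Pool.Agent.Helper13.AM.Zq
import Pool.Agent.Helper5.DO.Pro

/-! NESTED FRAMES: two frames of scales `s ≤ s'` of the same point differ by a triangular map whose coefficients of
weighted degree `m` in the coordinate `j` have size `2 ^ (- (w_j - m) s n)`. Proof: no relation over the finer box gives
the exponent `w_j s - m s'`; chain of scales with small steps and the gap of the weights. -/

set_option autoImplicit false

namespace Pool.Agent.Helper71.BLD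

open Finset Filter Topology Pool.Agent.Helper69.RK Pool.Agent.Helper31.EC Pool.Agent.Helper31.EC.Sp
open Pool.Agent.Helper31.EC.QS
open Pool.Agent.Helper57.TA
open Pool.Agent.Helper13.AM
open Pool.Agent.Helper77.WDG (WLe WLt wt_add wt_zero wt_single wt_nonneg deg_le_wt)

noncomputable section

variable {S : Sp} {σ : Type} [Fintype σ] {w : σ → ℝ}

/-- coordinates of the box of scale `s` in the units of the space -/
def Us (w : σ → ℝ) (s : ℝ) (X : σ → QS S) (i : σ) : QS S := sc S (w i * s) * X i

omit [Fintype σ] in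
theorem Us_mem (hw : ∀ j, 0 ≤ w j) {s : ℝ} (hs : 0 ≤ s) (X : σ → QS S) (i : σ) : Us w s X i ∈ Id S (w i * s) := by
  have h1 := sc_mul_mem (S := S) (u := w i * s) (r := 0) (f := X i) (mul_nonneg (hw i) hs) (mem_Id_nonpos le_rfl)
  rwa [add_zero] at h1

/-! ### scaling of polynomials -/

/-- substitution of `2^(-w s) X` -/
def scl (w : σ → ℝ) (s : ℝ) (p : MvPolynomial σ (QS S)) : MvPolynomial σ (QS S) :=
  ∑ a ∈ p.support, MvPolynomial.monomial a (sc S (wgt w a * s) * p.coeff a)

theorem coeff_scl (s : ℝ) (p : MvPolynomial σ (QS S)) (a : σ →₀ ℕ) :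
    (scl w s p).coeff a = sc S (wgt w a * s) * p.coeff a := by
  classical
  unfold scl
  rw [MvPolynomial.coeff_sum]
  simp only [MvPolynomial.coeff_monomial]
  rw [Finset.sum_ite_eq' p.support a]
  split_ifs with h
  · rfl
  · rw [MvPolynomial.notMem_support_iff.mp h, mul_zero]

theorem eval_scl (hw : ∀ j, 0 ≤ w j) {s : ℝ} (hs : 0 ≤ s) (p : MvPolynomial σ (QS S)) (X : σ → QS S) :
    MvPolynomial.eval X (scl w s p) = MvPolynomial.eval (Us w s X) p := by
  classical
  unfold scl
  rw [map_sum, MvPolynomial.eval_eq' (Us w s X) p]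
  refine Finset.sum_congr rfl fun a _ => ?_
  rw [MvPolynomial.eval_monomial]
  have h1 : ∏ i, Us w s X i ^ a i = sc S (wgt w a * s) * ∏ i, X i ^ a i := mon_scale hw hs X a
  have h2 : (a.prod fun i n => X i ^ n) = ∏ i, X i ^ a i := by
    rw [Finsupp.prod_fintype]
    intro i
    rw [pow_zero]
  rw [h1, h2]
  ring

theorem scl_PK {K : S.L} (s : ℝ) {p : MvPolynomial σ (QS S)} (hp : p ∈ PK K) : scl w s p ∈ PK K := by
  intro a
  rw [coeff_scl]
  exact (Kn S 1 le_rfl K).mul_mem (show dg (sc S _) 1 ≤ K by rw [dg_sc]; exact bot_le) (hp a)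

omit [Fintype σ] in
theorem eval_map_hom {A B : Type*} [CommRing A] [CommRing B] (φ : A →+* B) (X : σ → A) (G : MvPolynomial σ A) :
    MvPolynomial.eval (fun i => φ (X i)) (MvPolynomial.map φ G) = φ (MvPolynomial.eval X G) := by
  rw [MvPolynomial.eval_map]
  have h8 := MvPolynomial.eval₂_comp_left φ (RingHom.id A) X G
  rw [RingHom.comp_id] at h8
  exact h8.symm

/-! ### no relation, all levels -/

/-- no relation between the coordinates `X i`, `V i`, with coefficients known to `K`, all levels -/
def NRx (V : σ → Prop) (K : S.L) (X : σ → QS S) : Prop := ∀ κ : ℝ, κ ≤ 1 → ∀ G : MvPolynomial σ (QS S), G ∈ PK K →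
  (∀ i ∈ G.vars, V i) → MvPolynomial.eval X G ∈ Id S κ → ∀ a, G.coeff a ∈ Id S κ

omit [Fintype σ] in
theorem NRx.mono {V V' : σ → Prop} {K K' : S.L} {X : σ → QS S} (h : NRx V' K' X) (hK : K ≤ K')
    (hV : ∀ i, V i → V' i) : NRx V K X :=
  fun κ h1 G hG hv => h κ h1 G (PK_mono hK hG) fun i hi => hV i (hv i hi)

/-- no relation between variables with full first digits -/
theorem NRx_of_Rt {V : σ → Prop} [DecidablePred V] {K : S.L} {X : σ → QS S} {ℓ : ℝ} (h0 : 0 < ℓ) (h1 : ℓ ≤ 1)
    (h : Rt ℓ (fun i : {i // V i} => X i.1) K) : NRx V K X := by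
  classical
  intro κ hκ G hG hv hev
  obtain ⟨G0, hG0⟩ := MvPolynomial.exists_rename_eq_of_vars_subset_range G (Subtype.val : {i // V i} → σ)
    Subtype.val_injective (by
      intro i hi
      exact ⟨⟨i, hv i hi⟩, rfl⟩)
  have h2 : G0 ∈ PK K := by
    intro m
    have h3 := hG (m.mapDomain Subtype.val)
    rwa [← hG0, MvPolynomial.coeff_rename_mapDomain _ Subtype.val_injective] at h3
  have h3 := mv_small h0 h1 h (P := G0) (r₀ := 1) (r := κ) hκ le_rfl (PKr_of_PK le_rfl h2) (by
    rw [← hG0, MvPolynomial.eval_rename] at hev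
    exact hev)
  intro a
  by_cases h4 : G.coeff a = 0
  · rw [h4]
    exact (Id S _).zero_mem
  · rw [← hG0] at h4 ⊢
    obtain ⟨m, hm, _⟩ := MvPolynomial.coeff_rename_ne_zero _ _ _ h4
    rw [← hm, MvPolynomial.coeff_rename_mapDomain _ Subtype.val_injective]
    exact h3 m

omit [Fintype σ] in
/-- no relation over the box at the depth `e` gives no relation at all levels -/
theorem NRx_of (Z : ∀ k, Setoid (S.F k).Ω) (e : ℝ) (he : 0 < e) (h1 : e ≤ 1) {X : σ → QS S} {K : S.L}
    (hK : chgL Z e he K = ⊥)
    (hNR : ∀ (D : ℕ) (r : ℝ), 0 < r → r ≤ 1 → Helper5.DO.NR D (fun i => cQ Z e he h1 (X i)) ⊥ r) (V : σ → Prop) :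
    NRx V K X := by
  classical
  have key : ∀ n : ℕ, ∀ κ : ℝ, κ ≤ 1 → κ ≤ n * e → ∀ G : MvPolynomial σ (QS S), G ∈ PK K →
      MvPolynomial.eval X G ∈ Id S κ → ∀ a, G.coeff a ∈ Id S κ := by
    intro n
    induction n with
    | zero =>
      intro κ _ h2 G _ _ a
      rw [Nat.cast_zero, zero_mul] at h2
      exact mem_Id_nonpos h2
    | succ n ih =>
      intro κ hκ1 h2 G hG hev
      rcases le_or_gt κ 0 with h3 | h3
      · exact fun a => mem_Id_nonpos h3
      set r : ℝ := min (κ / e) 1 with hr
      have hr0 : 0 < r := lt_min (div_pos h3 he) one_pos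
      have hr1 : r ≤ 1 := min_le_right _ _
      have her : e * r ≤ κ := by
        have h4 : r ≤ κ / e := min_le_left _ _
        calc e * r ≤ e * (κ / e) := mul_le_mul_of_nonneg_left h4 he.le
          _ = κ := by field_simp
      have h5 : ∀ a, G.coeff a ∈ Id S (e * r) := by
        intro a
        have h6 := hNR (MvPolynomial.map (cQ Z e he h1) G).totalDegree r hr0 hr1 (MvPolynomial.map (cQ Z e he h1) G)
          le_rfl (by
            intro m
            rw [MvPolynomial.coeff_map, cQ_dg Z e he h1 _ le_rfl, mul_one]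
            calc chgL Z e he (dg (G.coeff m) e) ≤ chgL Z e he K := chgL_mono _ _ _ ((dg_mono _ h1).trans (hG m))
              _ = ⊥ := hK) (by
            rw [eval_map_hom, cQ_mem Z e he h1 hr1]
            exact Id_anti her hev) a
        rw [MvPolynomial.coeff_map, cQ_mem Z e he h1 hr1] at h6
        exact h6
      rcases le_total κ e with h6 | h6
      · have h7 : e * r = κ := by
          rw [hr, min_eq_left ((div_le_one he).mpr h6)]
          field_simp
        rwa [h7] at h5
      · have h7 : r = 1 := by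
          rw [hr]
          exact min_eq_right ((one_le_div he).mpr h6)
        rw [h7, mul_one] at h5
        choose g hg hgd using fun a => exists_div' he.le h1 (h5 a)
        set G' : MvPolynomial σ (QS S) := ∑ a ∈ G.support, MvPolynomial.monomial a (g a) with hG'
        have hco : ∀ a, G.coeff a = sc S e * G'.coeff a := by
          intro a
          rw [hG', MvPolynomial.coeff_sum]
          simp only [MvPolynomial.coeff_monomial]
          rw [Finset.sum_ite_eq' G.support a]
          split_ifs with h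
          · exact hg a
          · rw [MvPolynomial.notMem_support_iff.mp h, mul_zero]
        have hGG : G = MvPolynomial.C (sc S e) * G' := by
          ext a
          rw [MvPolynomial.coeff_C_mul]
          exact hco a
        have hG'K : G' ∈ PK K := by
          intro a
          rw [hG', MvPolynomial.coeff_sum]
          simp only [MvPolynomial.coeff_monomial]
          rw [Finset.sum_ite_eq' G.support a]
          split_ifs with h
          · exact (hgd a).trans (hG a)
          · exact (Kn S 1 le_rfl K).zero_mem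
        have h8 : MvPolynomial.eval X G' ∈ Id S (κ - e) := by
          rw [hGG, map_mul, MvPolynomial.eval_C] at hev
          exact mem_of_sc_mul he.le hκ1 hev
        intro a
        rw [hco a]
        have h9 := ih (κ - e) (by linarith) (by
          push_cast at h2
          linarith) G' hG'K h8 a
        have h10 := sc_mul_mem he.le h9
        rwa [show e + (κ - e) = κ by ring] at h10
  intro κ hκ G hG _
  obtain ⟨n, hn⟩ := exists_nat_ge (κ / e)
  exact key n κ hκ (by
    rw [div_le_iff₀ he] at hn
    exact hn) G hG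

/-! ### one step -/

/-- ONE STEP: no relation over the finer box -/
theorem one_step (hw : ∀ j, 1 ≤ w j) {s s' : ℝ} (hs : 0 ≤ s) (hss : s ≤ s') (h1 : ∀ j, w j * s ≤ 1) {Q : σ → QS S}
    {P P' : σ → MvPolynomial σ (QS S)} {X X' : σ → QS S} {K : S.L} (hP : Wd w P) (hPK : ∀ j, P j ∈ PK K)
    (hPK' : ∀ j, P' j ∈ PK K) (heq : ∀ j, Q j = MvPolynomial.eval (Us w s X) (tm P j))
    (heq' : ∀ j, Q j = MvPolynomial.eval (Us w s' X') (tm P' j)) (hP' : Wd w P')
    (hNR : NRx (fun i => ∃ j, w i < w j) K X') (j : σ) (a : σ →₀ ℕ) :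
    (trs w P P' j).coeff a ∈ Id S (w j * s - wgt w a * s') := by
  have hw0 : ∀ j, 0 < w j := fun j => one_pos.trans_le (hw j)
  have h2 := eval_trs (Q := P') hw0 hP (U := Us w s X) (U' := Us w s' X') (fun j => (heq j).symm.trans (heq' j)) j
  have h3 : MvPolynomial.eval (Us w s' X') (trs w P P' j) ∈ Id S (w j * s) := by
    have h4 : MvPolynomial.eval (Us w s' X') (trs w P P' j) = Us w s X j - Us w s' X' j := by
      rw [h2]; ring
    rw [h4]
    refine (Id S _).sub_mem (Us_mem (fun j => (hw0 j).le) hs X j) (Id_anti ?_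
      (Us_mem (fun j => (hw0 j).le) (hs.trans hss) X' j))
    exact mul_le_mul_of_nonneg_left hss (hw0 j).le
  rw [← eval_scl (fun j => (hw0 j).le) (hs.trans hss)] at h3
  have h5 : trs w P P' j ∈ PK K := by
    have h6 : trs w P P' j ∈ CB σ (Kn S 1 le_rfl K) := trs_CB (B := Kn S 1 le_rfl K) hw0 hP (fun j a => hPK j a)
      (fun j a => hPK' j a) j
    exact h6
  have h6 := hNR (w j * s) (h1 j) _ (scl_PK s' h5) (fun i hi => by
    rw [MvPolynomial.mem_vars_iff_mem_support] at hi
    obtain ⟨b, hb, hi⟩ := hi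
    refine ⟨j, (hP.trs hw0 hP').vars hw0 j i ?_⟩
    rw [MvPolynomial.mem_vars_iff_mem_support]
    refine ⟨b, ?_, hi⟩
    rw [MvPolynomial.mem_support_iff] at hb ⊢
    intro h7
    rw [coeff_scl, h7, mul_zero] at hb
    exact hb rfl) h3 a
  rw [coeff_scl] at h6
  exact mem_of_sc_mul (mul_nonneg (wgt_nonneg (fun j => (hw0 j).le) a) (hs.trans hss)) (h1 j) h6

end

end Pool.Agent.Helper71.BLD
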