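import Pool.Agent.Helper10.BLD.St
import Pool.Agent.Helper50.BLD.Lc
import Pool.Agent.Helper33.LIT.Kap

/-! THE BUILDER, first corner: labels of the whole state (`Nlw`) for a corner whose types are the lines of good leaves and
whose boxes are literal labels `κ` of a system: a label without leak at all curves and cells of the height has no leak at
all lines of a leaf, hence at the windows of the leaf, hence at the label `κ`. -/

set_option autoImplicit false

namespace Pool.Agent.Helper71.BLD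

open Finset Filter Topology Pool.Agent.Helper69.RK Pool.Agent.Helper31.EC Pool.Agent.Helper31.EC.Sp
open Pool.Agent.Helper31.EC.QS Pool.Agent.Helper40.EL Pool.Agent.Helper84.MT
open Pool.Agent.Helper13.AM (CD)
open Pool.Agent.Helper10.BLD (Nlw)
open Pool.Agent.Helper50.BLD
open Pool.Agent.Helper82.TP (Lit)

noncomputable section

variable {S : Sp}

/-- leaks are smaller at finer conditions -/
theorem leak_ple {l : Lab S} {A B : Part S} (hl : Nul S (fun k => (l k).leak (A k))) (hAB : PLe A B) :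
    Nul S (fun k => (l k).leak (B k)) :=
  (hl.add hAB).of_le (Eventually.of_forall fun _ => FLab.leak_nonneg _ _)
    (Eventually.of_forall fun k => (l k).leak_le_leak (B k) (A k))

section line

variable {M : ℕ} {E : ℕ → ℕ} {Q : S.VV M} {l : Leaf S Q E}

/-- a label without leak at all lines of a leaf has no leak at the window of the leaf -/
theorem leak_win {s : ℝ} (h0 : 0 ≤ s) (hs : s ≤ 1) (he : 0 < l.e) {y : Lab S}
    (h : ∀ m : Fin l.e, Nul S fun k => (y k).leak (PCh.TA l (univ.erase m) s k)) :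
    Nul S fun k => (y k).leak (l.win s k) := by
  classical
  have key : ∀ A : Finset (Fin l.e), A.Nonempty → Nul S fun k => (y k).leak (PCh.TA l (univ \ A) s k) := by
    intro A hA
    induction hA using Finset.Nonempty.cons_induction with
    | singleton m =>
      rw [← Finset.erase_eq]
      exact h m
    | cons m A hm _ ih =>
      have e1 : univ \ (Finset.cons m A hm) = (univ.erase m) ∩ (univ \ A) := by
        ext a
        simp only [Finset.mem_sdiff, Finset.mem_univ, true_and, Finset.mem_cons, Finset.mem_inter, Finset.mem_erase,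
          and_true]
        tauto
      rw [e1]
      exact PCh.leak_inter_TA l h0 hs (h m) ih
  have h1 := key univ ⟨⟨0, he⟩, Finset.mem_univ _⟩
  rw [Finset.sdiff_self] at h1
  have e2 : (fun k => (y k).leak (PCh.TA l ∅ s k)) = fun k => (y k).leak (l.win s k) := by
    funext k
    rw [PCh.TA_empty]
  rw [← e2]
  exact h1

variable {w : Fin M → ℝ} {d N g : ℕ}

/-- the curve of a line and the cell of the height are known to the window of the line -/
theorem lt_TA (c : PCh l w) (i₀ : Fin l.e) (φ : Fin (d + 1) → Fin M) (ψ : Fin N → Fin M) (hφ : ∀ j, w (φ j) < 2)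
    (hψ : ∀ j, w (ψ j) < g + 1) (hu : IsUnit (QS.mk (c.co (φ 0) (Finsupp.single i₀ 1)))) {s : ℝ} (hs : s ≤ 1) :
    PLe (rp ((c.lt i₀ φ ψ hφ hψ hu).xi ⊔ dg (QS.mk (TR.cor Q (φ 0))) s)) (PCh.TA l (univ.erase i₀) s) := by
  have h1 : KP (lw (PCh.V l i₀) (PCh.y l i₀) s) ((c.lt i₀ φ ψ hφ hψ hu).xi ⊔ dg (QS.mk (TR.cor Q (φ 0))) s) := by
    refine KP.sup ((c.lt i₀ φ ψ hφ hψ hu).xi_kp.trans (pv_lw _ _ _)) ?_
    rw [← c.pl_eval i₀ (φ 0)]
    have h2 : ∀ p : Polynomial (LR (PCh.V l i₀)), (p.map (LR (PCh.V l i₀)).subtype).eval (PCh.y l i₀) ∈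
        KB (lw (PCh.V l i₀) (PCh.y l i₀) s) s hs := by
      intro p
      rw [Polynomial.eval_eq_sum_range]
      refine Subring.sum_mem _ fun n _ => Subring.mul_mem _ ?_ (Subring.pow_mem _ ?_ _)
      · rw [Polynomial.coeff_map]
        exact (lit_kp (p.coeff n).2 hs).trans (pv_lw _ _ _)
      · exact dg_lw _ _ _
    exact h2 _
  exact PLe.trans h1 (PCh.lw_le_TA l i₀ hs)

end line

/-- LABELS OF THE FIRST CORNER. `s` = system whose literal labels `κ` are the boxes; every type `i0` of `s` either is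
known to the point together with its leaf, or is covered by a leaf `l` all of whose lines are types of the corner -/
theorem nlw_of {d N r' : ℕ} {c : CD S d N r'} {w : Fin N → ℝ} {z : Fin N} (hw : 1 ≤ w z) {M : ℕ} {E : ℕ → ℕ} {ι : Type}
    (s : MSys S M E ι) (hb : ∀ t, Bdd (c.VK t))
    (hk : ∀ t, 0 ≤ t → w z * t < 1 → s.IsKap t (Lab.ofZ fun k => Setoid.ker (c.VK t k)))
    (hO : PLe (rp c.O) (pcd s.Q))
    (hl : ∀ i0 : ι, PLe (rp c.O) (fun k => fc ((s.lf i0).La k)) ∨
      ∃ (M' : ℕ) (E' : ℕ → ℕ) (Q' : S.VV M') (l : Leaf S Q' E'), 0 < l.e ∧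
        (∀ t, 0 ≤ t → t ≤ 1 → PLe (l.win t) ((s.lf i0).win t)) ∧
        ∀ m : Fin l.e, ∃ i : Fin r', ∀ t, 0 ≤ t → t ≤ 1 →
          PLe (rp (c.xi i ⊔ dg (c.q 0) t)) (PCh.TA l (univ.erase m) t)) : Nlw c w z := by
  intro t h0 h1 y _ hyO hyi
  have ht1 : t ≤ 1 := by
    have h2 : 1 * t ≤ w z * t := mul_le_mul_of_nonneg_right hw h0
    linarith
  have hD : s.DMc t y := by
    intro i0
    rcases i0 with _ | i0
    · exact leak_ple hyO hO
    · rcases hl i0 with h2 | ⟨M', E', Q', l, he, hwin, hm⟩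
      · exact leak_ple hyO (h2.trans (PLe_of_le fun k => fc_mono inf_le_left))
      · refine leak_ple (leak_win h0 ht1 he fun m => ?_) (hwin t h0 ht1)
        obtain ⟨i, hi⟩ := hm m
        exact leak_ple (hyi i) (hi t h0 ht1)
  have h2 := Helper33.LIT.kap_univ (hk t h0 h1) hD
  have h3 : Nul S fun k => (y k).leak (fc (Setoid.ker (c.VK t k))) := h2
  refine leak_ple (A := fun k => fc (Setoid.ker (c.VK t k))) h3 ?_
  have e1 : c.K t = cl (hb t).toInf := io_eq (hb t)
  rw [e1]
  exact (rp_rpI (hb t).toInf).2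

/-- the point of a corner in real linear coordinates is known to the digits of the point of the system -/
theorem qA_ple {M d N : ℕ} {w : Fin (M + 1) → ℝ} (P : Pool.Agent.Helper10.BLD.Spl w d N)
    (A : Matrix (Fin (d + 1)) (Fin (d + 1)) ℝ) (Q : S.VV (M + 1)) :
    PLe (rp (vd (Pool.Agent.Helper10.BLD.qA P A Q) 1 ⊔ vd (Pool.Agent.Helper10.BLD.Rv P Q) 1)) (pcd Q) := by
  have h1 : ∀ j, dg (Pool.Agent.Helper10.BLD.qc Q j) 1 ≤ Q.dg 1 := by
    intro j
    unfold Pool.Agent.Helper10.BLD.qc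
    rw [dg_mk _ le_rfl]
    exact TR.cor_dg_le Q j 1
  refine (rp_mono (sup_le ?_ ?_)).trans (pcd_rp Q).1
  · rw [vd_le]
    intro i
    exact (Kn S 1 le_rfl (Q.dg 1)).sum_mem fun j _ => (Kn S 1 le_rfl (Q.dg 1)).mul_mem
      ((Pool.Agent.Helper57.TA.dg_rcst _ _).le.trans bot_le) (h1 _)
  · rw [vd_le]
    exact fun j => h1 _

end

end Pool.Agent.Helper71.BLD
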