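import Pool.Agent.Helper71.BLD.Chn
import Pool.Agent.Helper82.TP.Copy

/-! NESTED FRAMES: rescaling; the frames of the finer boxes in the coordinates of the zoom. -/

set_option autoImplicit false

namespace Pool.Agent.Helper71.BLD

open Finset Filter Topology Pool.Agent.Helper69.RK Pool.Agent.Helper31.EC Pool.Agent.Helper31.EC.Sp
open Pool.Agent.Helper31.EC.QS
open Pool.Agent.Helper57.TA
open Pool.Agent.Helper13.AM
open Pool.Agent.Helper82.TP (Lit)
open Pool.Agent.Helper77.WDG (WLe WLt wt_add wt_zero wt_single wt_nonneg deg_le_wt)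

noncomputable section

variable {S : Sp} {σ : Type} [Fintype σ] {w : σ → ℝ}

/-- scales under the change of the base and of the depth -/
theorem cQ_sc (Z : ∀ k, Setoid (S.F k).Ω) (e : ℝ) (he : 0 < e) (h1 : e ≤ 1) {u : ℝ} (hu : 0 ≤ u) :
    cQ Z e he h1 (sc S u) = sc (S.chg Z e he) (u / e) := by
  unfold sc
  rw [cQ_mk]
  congr 1
  apply Subtype.ext
  funext k ω
  show S.dl (max u 0) k = (S.chg Z e he).dl (max (u / e) 0) k
  rw [max_eq_left hu, max_eq_left (div_nonneg hu he.le), chg_dl]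
  congr 1
  field_simp

/-! ### literal functions -/

section lit

variable {β β' : ℕ → Type} {V : ∀ k, (S.F k).Ω → β k} {V' : ∀ k, (S.F k).Ω → β' k}

/-- the subring of the literal functions -/
def LitR (V : ∀ k, (S.F k).Ω → β k) : Subring (QS S) where
  carrier := {f | Lit V f}
  mul_mem' := fun h1 h2 => h1.mul h2
  one_mem' := ⟨1, map_one _, Eventually.of_forall fun k ω ω' _ _ _ _ => by rw [TR.ev_one, TR.ev_one]⟩
  add_mem' := fun h1 h2 => h1.add h2
  zero_mem' := ⟨0, map_zero _, Eventually.of_forall fun k ω ω' _ _ _ _ => by rw [TR.ev_zero, TR.ev_zero]⟩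
  neg_mem' := fun h => h.neg

theorem mem_LitR {f : QS S} : f ∈ LitR V ↔ Lit V f := Iff.rfl

/-- scales are literal -/
theorem sc_LitR (u : ℝ) : sc S u ∈ LitR V :=
  ⟨scT S u, rfl, Eventually.of_forall fun _ _ _ _ _ _ _ => rfl⟩

theorem LitR_mono (h : ∀ k ω ω', V k ω = V k ω' → V' k ω = V' k ω') : LitR V' ≤ LitR V :=
  fun _ hf => Lit.of_fun hf (Eventually.of_forall fun k ω ω' _ _ _ e => h k ω ω' e)

open Classical in
/-- division of literal functions by a scale -/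
theorem lit_div {u : ℝ} (hu : 0 ≤ u) (hu1 : u ≤ 1) {f : QS S} (hf : f ∈ LitR V) (h : f ∈ QS.Id S u) :
    ∃ g ∈ LitR V, f = sc S u * g := by
  obtain ⟨f, rfl, hl⟩ := hf
  rw [mem_Id_iff, min_eq_left hu1] at h
  obtain ⟨E, K, hE, hK, hh⟩ := h
  set g : TR S := ⟨fun k ω => if |TR.ev f k ω| ≤ K k * S.dl u k then TR.ev f k ω / S.dl u k else 0, K, hK, by
    filter_upwards [hK.1] with k hK0 ω _
    split_ifs with h1
    · rw [abs_div, abs_of_pos (S.dl_pos _ _), div_le_iff₀ (S.dl_pos _ _)]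
      exact h1
    · rw [abs_zero]
      exact hK0⟩ with hg
  refine ⟨QS.mk g, ⟨g, rfl, ?_⟩, ?_⟩
  · filter_upwards [hl] with k hk ω ω' a b c d
    show (if |TR.ev f k ω| ≤ K k * S.dl u k then TR.ev f k ω / S.dl u k else 0) =
      if |TR.ev f k ω'| ≤ K k * S.dl u k then TR.ev f k ω' / S.dl u k else 0
    rw [hk ω ω' a b c d]
  · unfold sc
    rw [← map_mul, QS.mk_eq]
    apply TR.Te.ag
    refine ⟨E, hE, ?_⟩
    filter_upwards [hh] with k hk ω a b
    have h1 := hk ω a b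
    rw [TR.ev_zero, sub_zero] at h1
    have h2 : TR.ev g k ω = TR.ev f k ω / S.dl u k := by
      show (if |TR.ev f k ω| ≤ K k * S.dl u k then TR.ev f k ω / S.dl u k else 0) = _
      rw [if_pos h1]
    rw [TR.ev_mul, ev_scT hu, h2, mul_div_cancel₀ _ (S.dl_pos _ _).ne']

/-- literal functions of a pair become literal functions of the second variable if the first one is known to the new
base -/
theorem lit_chg (Z : ∀ k, Setoid (S.F k).Ω) (e : ℝ) (he : 0 < e) (h1 : e ≤ 1)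
    (hZ : ∀ k ω ω', Z k ω ω' → V k ω = V k ω') {f : QS S} (hf : Lit (β := fun k => β k × β' k) (fun k ω => (V k ω, V' k ω)) f) :
    Lit (S := S.chg Z e he) V' (cQ Z e he h1 f) := by
  obtain ⟨f, rfl, hl⟩ := hf
  refine ⟨cT Z e he f, rfl, ?_⟩
  filter_upwards [hl] with k hk ω ω' a b c d
  exact hk ω ω' a b c.2 (by rw [Prod.mk.injEq]; exact ⟨hZ k ω ω' c.1, d⟩)

end lit

/-! ### rescaling -/

/-- RESCALING of a transition -/
theorem exists_resc {B : Subring (QS S)} (hB : ∀ u, 0 ≤ u → u ≤ 1 → ∀ f ∈ B, f ∈ QS.Id S u → ∃ g ∈ B, f = sc S u * g)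
    (hw : ∀ j, 0 < w j) {s : ℝ} (hs : 0 ≤ s) (hs1 : ∀ j, w j * s ≤ 1) {R : σ → MvPolynomial σ (QS S)} (hR : Wd w R)
    (hRB : ∀ j, R j ∈ CB σ B) (hb : ∀ j a, (R j).coeff a ∈ QS.Id S ((w j - wgt w a) * s)) :
    ∃ P : σ → MvPolynomial σ (QS S), Wd w P ∧ (∀ j, P j ∈ CB σ B) ∧ (∀ j a, (P j).coeff a ≠ 0 → wgt w a < w j) ∧
      ∀ j a, (R j).coeff a = sc S ((w j - wgt w a) * s) * (P j).coeff a := by
  classical
  have h1 : ∀ j a, ∃ g ∈ B, (R j).coeff a = sc S ((w j - wgt w a) * s) * g := by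
    intro j a
    by_cases h0 : (R j).coeff a = 0
    · exact ⟨0, B.zero_mem, by rw [h0, mul_zero]⟩
    · have h2 := hR.wgt_lt h0
      have h3 : 0 ≤ wgt w a := wgt_nonneg (fun j => (hw j).le) a
      refine hB _ (mul_nonneg (by linarith) hs) ?_ _ (hRB j a) (hb j a)
      have h4 : (w j - wgt w a) * s ≤ w j * s := mul_le_mul_of_nonneg_right (by linarith) hs
      exact h4.trans (hs1 j)
  choose g hgB hg using h1
  have hco : ∀ j a, (∑ a ∈ (R j).support, MvPolynomial.monomial a (g j a)).coeff a =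
      if a ∈ (R j).support then g j a else 0 := by
    intro j a
    rw [MvPolynomial.coeff_sum]
    simp only [MvPolynomial.coeff_monomial]
    rw [Finset.sum_ite_eq' (R j).support a]
  refine ⟨fun j => ∑ a ∈ (R j).support, MvPolynomial.monomial a (g j a), fun j => ?_, fun j a => ?_, fun j a h => ?_,
    fun j a => ?_⟩
  · obtain ⟨d, hd, h⟩ := hR j
    refine ⟨d, hd, fun a ha => h a ?_⟩
    rw [MvPolynomial.mem_support_iff, hco] at ha
    by_contra h0
    rw [if_neg h0] at ha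
    exact ha rfl
  · rw [hco]
    split_ifs
    · exact hgB j a
    · exact B.zero_mem
  · rw [hco] at h
    by_contra h0
    rw [if_neg (fun h2 => h0 (hR.wgt_lt (MvPolynomial.mem_support_iff.mp h2)))] at h
    exact h rfl
  · rw [hco]
    split_ifs with h
    · exact hg j a
    · rw [MvPolynomial.notMem_support_iff.mp h, mul_zero]

/-- values of the rescaled transition -/
theorem eval_resc (hw : ∀ j, 0 < w j) {s s1 : ℝ} (hs : 0 ≤ s) (hss : s ≤ s1) {R P : σ → MvPolynomial σ (QS S)}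
    (hP : ∀ j a, (P j).coeff a ≠ 0 → wgt w a < w j)
    (h : ∀ j a, (R j).coeff a = sc S ((w j - wgt w a) * s) * (P j).coeff a) (X : σ → QS S) (j : σ) :
    MvPolynomial.eval (Us w s1 X) (R j) = sc S (w j * s) * MvPolynomial.eval (Us w (s1 - s) X) (P j) := by
  have hw0 : ∀ j, 0 ≤ w j := fun j => (hw j).le
  rw [← eval_scl hw0 (hs.trans hss), ← eval_scl hw0 (by linarith : (0 : ℝ) ≤ s1 - s)]
  have h1 : scl w s1 (R j) = MvPolynomial.C (sc S (w j * s)) * scl w (s1 - s) (P j) := by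
    ext a
    rw [MvPolynomial.coeff_C_mul, coeff_scl, coeff_scl, h j a]
    by_cases h0 : (P j).coeff a = 0
    · rw [h0, mul_zero, mul_zero, mul_zero, mul_zero]
    · have h2 := hP j a h0
      have h3 : 0 ≤ wgt w a := wgt_nonneg hw0 a
      have e1 : sc S (wgt w a * s1) * sc S ((w j - wgt w a) * s) = sc S (w j * s) * sc S (wgt w a * (s1 - s)) := by
        rw [← sc_add (mul_nonneg h3 (hs.trans hss)) (mul_nonneg (by linarith) hs),
          ← sc_add (mul_nonneg (hw0 j) hs) (mul_nonneg h3 (by linarith))]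
        congr 1
        ring
      rw [← mul_assoc, e1, mul_assoc]
  rw [h1, map_mul, MvPolynomial.eval_C]

/-- THE FRAME OF THE FINER BOX IN THE COORDINATES OF THE ZOOM -/
theorem zoom_frame {B : Subring (QS S)}
    (hB : ∀ u, 0 ≤ u → u ≤ 1 → ∀ f ∈ B, f ∈ QS.Id S u → ∃ g ∈ B, f = sc S u * g) (hw : ∀ j, 1 ≤ w j) {s0 s1 : ℝ}
    (h0 : 0 ≤ s0) (h01 : s0 ≤ s1) (Z : ∀ k, Setoid (S.F k).Ω) {e : ℝ} (he : 0 < e) (h1 : e ≤ 1)
    (hL : ∀ j, w j * s0 + e ≤ 1) {Q : σ → QS S} {P0 P1 : σ → MvPolynomial σ (QS S)} {X0 X1 : σ → QS S}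
    (wd0 : Wd w P0) (wd1 : Wd w P1) (cf0 : ∀ j, P0 j ∈ CB σ B) (cf1 : ∀ j, P1 j ∈ CB σ B)
    (eq0 : ∀ j, Q j = MvPolynomial.eval (Us w s0 X0) (tm P0 j))
    (eq1 : ∀ j, Q j = MvPolynomial.eval (Us w s1 X1) (tm P1 j))
    (hn : ∀ j a, (trs w P0 P1 j).coeff a ∈ QS.Id S ((w j - wgt w a) * s0)) :
    ∃ P : σ → MvPolynomial σ (QS S), Wd w P ∧ (∀ j, P j ∈ CB σ B) ∧ ∀ j, cQ Z e he h1 (X0 j) =
      MvPolynomial.eval (Us w ((s1 - s0) / e) (fun i => cQ Z e he h1 (X1 i)))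
        (tm (fun j => MvPolynomial.map (cQ Z e he h1) (P j)) j) := by
  have hw0 : ∀ j, 0 < w j := fun j => one_pos.trans_le (hw j)
  obtain ⟨P, hPw, hPB, hPl, hPe⟩ := exists_resc hB hw0 h0 (fun j => by linarith [hL j]) (wd0.trs hw0 wd1)
    (fun j => trs_CB hw0 wd0 cf0 cf1 j) hn
  refine ⟨P, hPw, hPB, fun j => ?_⟩
  have h2 := eval_trs (Q := P1) hw0 wd0 (U := Us w s0 X0) (U' := Us w s1 X1) (fun j => (eq0 j).symm.trans (eq1 j)) j
  rw [eval_resc hw0 h0 h01 hPl hPe X1 j] at h2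
  have h3 : Us w s1 X1 j = sc S (w j * s0) * Us w (s1 - s0) X1 j := by
    unfold Us
    rw [← mul_assoc, ← sc_add (mul_nonneg (hw0 j).le h0) (mul_nonneg (hw0 j).le (by linarith))]
    congr 2
    ring
  have h4 : X0 j - (Us w (s1 - s0) X1 j + MvPolynomial.eval (Us w (s1 - s0) X1) (P j)) ∈ QS.Id S (1 - w j * s0) := by
    apply mem_of_sc_mul (mul_nonneg (hw0 j).le h0) le_rfl
    rw [mem_Id_one]
    have h5 : Us w s0 X0 j = sc S (w j * s0) * X0 j := rfl
    rw [h5, h3] at h2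
    rw [mul_sub, mul_add, h2]
    ring
  have h5 : cQ Z e he h1 (X0 j) = cQ Z e he h1 (Us w (s1 - s0) X1 j + MvPolynomial.eval (Us w (s1 - s0) X1) (P j)) := by
    rw [cQ_eq]
    exact Id_anti (by linarith [hL j]) h4
  have h6 : ∀ i, cQ Z e he h1 (Us w (s1 - s0) X1 i) = Us w ((s1 - s0) / e) (fun i => cQ Z e he h1 (X1 i)) i := by
    intro i
    unfold Us
    rw [map_mul, cQ_sc Z e he h1 (mul_nonneg (hw0 i).le (by linarith)), mul_div_assoc]
  rw [h5, map_add, h6, eval_tm, ← eval_map_hom]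
  congr 1
  congr 1
  congr 1
  funext i
  exact h6 i

end

end Pool.Agent.Helper71.BLD
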