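import Pool.Agent.Helper71.BLD.Zf
import Pool.Agent.Helper13.AM.Zt
import Pool.Agent.Helper10.BLD.St

/-! Corners: THE BOXES OF A ZOOM: all axioms of the boxes for the zoomed corner, frames from the nested frames,
generators = centre and coefficients of the frame. -/

set_option autoImplicit false

namespace Pool.Agent.Helper71.BLD

open Finset Filter Topology Pool.Agent.Helper69.RK Pool.Agent.Helper31.EC Pool.Agent.Helper31.EC.Sp
open Pool.Agent.Helper31.EC.QS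
open Pool.Agent.Helper57.TA
open Pool.Agent.Helper13.AM
open Pool.Agent.Helper82.TP (Lit)
open Pool.Agent.Helper77.WDG (WLe WLt wt_add wt_zero wt_single wt_nonneg deg_le_wt)

noncomputable section

/-! ### a finite family of generators -/

/-- a finite set which contains all exponents of weight less than `b` -/
def expF (σ : Type) [Fintype σ] (b : ℝ) : Set (σ →₀ ℕ) := {n | ∀ a, n a ≤ ⌈b⌉₊}

theorem expF_fin (σ : Type) [Fintype σ] (b : ℝ) : (expF σ b).Finite := by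
  classical
  refine Set.Finite.subset (s := (fun f : σ → Fin (⌈b⌉₊ + 1) => Finsupp.equivFunOnFinite.symm fun a => ((f a : Fin _) : ℕ)) '' Set.univ)
    (Set.Finite.image _ Set.finite_univ) ?_
  intro n hn
  refine ⟨fun a => ⟨n a, Nat.lt_succ_of_le (hn a)⟩, Set.mem_univ _, ?_⟩
  ext a
  rfl

theorem mem_expF {σ : Type} [Fintype σ] {w : σ → ℝ} (hw : ∀ a, 1 ≤ w a) {b : ℝ} {n : σ →₀ ℕ} (h : wgt w n < b) :
    n ∈ expF σ b := by
  intro a
  have h1 : (n a : ℝ) * w a ≤ wgt w n := by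
    unfold wgt
    exact Finset.single_le_sum (f := fun a => (n a : ℝ) * w a)
      (fun a _ => mul_nonneg (Nat.cast_nonneg _) (zero_le_one.trans (hw a))) (mem_univ a)
  have h2 : (n a : ℝ) ≤ n a * w a := le_mul_of_one_le_right (Nat.cast_nonneg _) (hw a)
  have h3 : (n a : ℝ) ≤ (⌈b⌉₊ : ℝ) := (h2.trans (h1.trans h.le)).trans (Nat.le_ceil b)
  exact_mod_cast h3

/-- indices of the generators -/
def gI (d N : ℕ) (b : ℝ) : Type := Fin (d + 1) ⊕ (Fin N × ↥(expF_fin (Fin (d + 1) ⊕ Fin N) b).toFinset)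

instance (d N : ℕ) (b : ℝ) : Fintype (gI d N b) :=
  inferInstanceAs (Fintype (Fin (d + 1) ⊕ (Fin N × ↥(expF_fin (Fin (d + 1) ⊕ Fin N) b).toFinset)))

/-- number of the generators -/
def gm (d N : ℕ) (b : ℝ) : ℕ := Fintype.card (gI d N b)

variable {S : Sp} {d N r : ℕ}

/-- value of a generator -/
def gv (b : ℝ) (q0 : Fin (d + 1) → QS S) (F : Fin N → MvPolynomial (Fin (d + 1) ⊕ Fin N) (QS S)) :
    gI d N b → QS S
  | Sum.inl i => q0 i
  | Sum.inr x => (F x.1).coeff x.2.1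

/-- generators: the centre and the coefficients of the frame -/
def gG (b : ℝ) (q0 : Fin (d + 1) → QS S) (F : Fin N → MvPolynomial (Fin (d + 1) ⊕ Fin N) (QS S)) :
    Fin (gm d N b) → QS S := fun a => gv b q0 F ((Fintype.equivFin (gI d N b)).symm a)

theorem gG_q (b : ℝ) (q0 : Fin (d + 1) → QS S) (F : Fin N → MvPolynomial (Fin (d + 1) ⊕ Fin N) (QS S))
    (i : Fin (d + 1)) : ∃ a, q0 i = gG b q0 F a :=
  ⟨Fintype.equivFin (gI d N b) (Sum.inl i), by
    unfold gG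
    rw [Equiv.symm_apply_apply]
    rfl⟩

theorem gG_F {b : ℝ} (q0 : Fin (d + 1) → QS S) (F : Fin N → MvPolynomial (Fin (d + 1) ⊕ Fin N) (QS S))
    (j : Fin N) {n : Fin (d + 1) ⊕ Fin N →₀ ℕ} (hn : n ∈ expF (Fin (d + 1) ⊕ Fin N) b) :
    ∃ a, (F j).coeff n = gG b q0 F a :=
  ⟨Fintype.equivFin (gI d N b) (Sum.inr (j, ⟨n, by
      rw [Set.Finite.mem_toFinset]
      exact hn⟩)), by
    unfold gG
    rw [Equiv.symm_apply_apply]
    rfl⟩

theorem gG_of {b : ℝ} {q0 : Fin (d + 1) → QS S} {F : Fin N → MvPolynomial (Fin (d + 1) ⊕ Fin N) (QS S)}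
    {p : QS S → Prop} (h1 : ∀ i, p (q0 i)) (h2 : ∀ j n, p ((F j).coeff n)) (a : Fin (gm d N b)) : p (gG b q0 F a) := by
  unfold gG
  rcases (Fintype.equivFin (gI d N b)).symm a with i | x
  · exact h1 i
  · exact h2 _ _

/-! ### the new base -/

variable {c : CD S d N r} {w : Fin N → ℝ} {z : Fin N}

/-- the partition into the boxes of scale `s` -/
abbrev ZK (c : CD S d N r) (s : ℝ) : ∀ k, Setoid (S.F k).Ω := fun k => Setoid.ker (c.VK s k)

theorem K_base {s e : ℝ} (he : 0 < e) (hb : Bdd (c.VK s)) : chgL (ZK c s) e he (c.K s) = ⊥ := by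
  have h2 := chgL_base e he hb.toInf
  have h3 : c.K s = cl hb.toInf := io_eq hb
  rw [h3]
  exact h2

theorem h_chgK {s e : ℝ} (he : 0 < e) (hb : Bdd (c.VK s)) (x y : S.L) :
    h (chgL (ZK c s) e he x) (chgL (ZK c s) e he y) = h x (y ⊔ c.K s) / e := by
  have h3 := h_chgL_inf e he hb.toInf x y
  have h4 : c.K s = cl hb.toInf := io_eq hb
  rw [h4]
  exact h3

theorem chgL_le_of {s e : ℝ} (he : 0 < e) (hb : Bdd (c.VK s)) {x y : S.L} (h : x ≤ y ⊔ c.K s) :
    chgL (ZK c s) e he x ≤ chgL (ZK c s) e he y := by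
  have h1 := chgL_mono (ZK c s) e he h
  rwa [chgL_sup, K_base he hb, sup_bot_eq] at h1

/-! ### frames of the zoom -/

/-- polynomials of weighted degree less than one are constant -/
theorem const_of_wt {σ : Type} [Fintype σ] {w : σ → ℝ} (hw : ∀ a, 1 ≤ w a) {P : MvPolynomial σ (QS S)}
    (h : ∀ n, P.coeff n ≠ 0 → wgt w n < 1) : P = MvPolynomial.C (P.coeff 0) := by
  classical
  ext n
  rw [MvPolynomial.coeff_C]
  split_ifs with h0
  · rw [h0]
  · by_contra h1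
    apply h0
    have h2 := h n h1
    ext a
    rw [Finsupp.coe_zero, Pi.zero_apply]
    by_contra h3
    have h4 : (n a : ℝ) * w a ≤ wgt w n := by
      unfold wgt
      exact Finset.single_le_sum (f := fun a => (n a : ℝ) * w a)
        (fun a _ => mul_nonneg (Nat.cast_nonneg _) (zero_le_one.trans (hw a))) (mem_univ a)
    have h5 : (1 : ℝ) ≤ n a := by
      have : 1 ≤ n a := Nat.one_le_iff_ne_zero.mpr fun h6 => h3 h6.symm
      exact_mod_cast this
    have h6 : (1 : ℝ) * 1 ≤ n a * w a := mul_le_mul h5 (hw a) zero_le_one (by linarith)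
    linarith

/-- the frame of one finer box in the coordinates of the zoom -/
theorem exists_frm {ρ : ℝ} (hc : c.Bx w z) (hn : c.Num w z ρ) (hq : Rl c.q ⊥) (hw : ∀ j, 1 < w j)
    (hz : ∀ j, w j ≤ w z) {s e : ℝ} (h0 : 0 ≤ s) (he : 0 < e) (h1 : e ≤ 1) (hse : w z * s + e ≤ 1)
    {X : Fin (d + 1) ⊕ Fin N → QS S} (hX : IsX c w s X) {s' : ℝ} (h0' : 0 ≤ s') (h1' : w z * (s + e * s') ≤ 1) :
    ∃ (q0 : Fin (d + 1) → QS (S.chg (ZK c s) e he))
      (F : Fin N → MvPolynomial (Fin (d + 1) ⊕ Fin N) (QS (S.chg (ZK c s) e he)))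
      (γ : Fin N → QS (S.chg (ZK c s) e he)),
      (∀ i, cQ (ZK c s) e he h1 (X (Sum.inl i)) - q0 i ∈ QS.Id _ s') ∧ (∀ j, γ j ∈ QS.Id _ (w j * s')) ∧
      (∀ j, cQ (ZK c s) e he h1 (X (Sum.inr j)) = MvPolynomial.eval
        (Sum.elim (fun i => cQ (ZK c s) e he h1 (X (Sum.inl i)) - q0 i) γ) (F j) + γ j) ∧
      (∀ j n, (F j).coeff n ≠ 0 → wgt (Sum.elim (fun _ => 1) w) n < w j) ∧
      (∀ i, Lit (S := S.chg (ZK c s) e he) (c.VK (s + e * s')) (q0 i)) ∧
      (∀ j n, Lit (S := S.chg (ZK c s) e he) (c.VK (s + e * s')) ((F j).coeff n)) ∧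
      (s' = 0 → (∀ i, q0 i = 0) ∧ ∀ j, F j = 0) ∧
      (∀ i, ∃ x : QS S, c.q0 (s + e * s') i - c.q0 s i = sc S s * x ∧ q0 i = cQ (ZK c s) e he h1 x) ∧
      ∀ j, ∃ y : QS S, c.γ (s + e * s') j = sc S (w j * s) * y ∧ γ j = cQ (ZK c s) e he h1 y := by
  have hz0 : 0 < w z := one_pos.trans (hw z)
  have hw0 : ∀ a, 0 < wv d w a := fun a => one_pos.trans_le (wv_one hw a)
  rcases eq_or_ne s' 0 with hs' | hs'
  · refine ⟨fun _ => 0, fun _ => 0, fun j => cQ (ZK c s) e he h1 (X (Sum.inr j)), fun i => ?_, fun j => ?_, fun j => ?_,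
      fun j n h => ?_, fun i => ?_, fun j n => ?_, fun _ => ⟨fun _ => rfl, fun _ => rfl⟩, fun i => ⟨0, ?_, ?_⟩,
      fun j => ⟨X (Sum.inr j), ?_, rfl⟩⟩
    · exact mem_Id_nonpos hs'.le
    · rw [hs', mul_zero]
      exact mem_Id_nonpos le_rfl
    · rw [map_zero, zero_add]
    · exact absurd (MvPolynomial.coeff_zero n) h
    · exact (LitR (S := S.chg (ZK c s) e he) (c.VK (s + e * s'))).zero_mem
    · rw [MvPolynomial.coeff_zero]
      exact (LitR (S := S.chg (ZK c s) e he) (c.VK (s + e * s'))).zero_mem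
    · rw [hs', mul_zero, add_zero, sub_self, mul_zero]
    · rw [map_zero]
    · rw [hs', mul_zero, add_zero, hX.R j]
  · have h01 : s ≤ s + e * s' := by nlinarith
    have h1s : w z * (s + e * s') ≤ 1 := h1'
    have h1s0 : w z * s ≤ 1 := by linarith
    obtain ⟨X1, hX1⟩ := exists_X hc hw hz (h0.trans h01) h1s
    obtain ⟨B, hB⟩ : ∃ B : Subring (QS S), B = LitR (S := S) (β := fun k => c.kb s k × c.kb (s + e * s') k)
      (fun k ω => (c.VK s k ω, c.VK (s + e * s') k ω)) := ⟨_, rfl⟩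
    obtain ⟨P, hPw, hPB, hPe⟩ := zoom_frame (B := B) (w := wv d w)
      (by
        intro u hu hu1 f hf hfu
        rw [hB] at hf ⊢
        exact lit_div hu hu1 hf hfu)
      (wv_one hw) h0 h01 (ZK c s) he h1
      (fun a => by
        have := mul_le_mul_of_nonneg_right (wv_le (d := d) hw hz a) h0
        linarith)
      (Q := c.pt) (P0 := fP c s) (P1 := fP c (s + e * s')) (X0 := X) (X1 := X1) (fP_wd hc hw s) (fP_wd hc hw _)
      (fun a n => by
        rw [hB]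
        exact LitR_mono (fun k ω ω' h => (Prod.mk.injEq _ _ _ _ ▸ h).1) (fP_lit hc s a n))
      (fun a n => by
        rw [hB]
        exact LitR_mono (fun k ω ω' h => (Prod.mk.injEq _ _ _ _ ▸ h).2) (fP_lit hc (s + e * s') a n))
      (fun a => fP_eq hc h0 h1s0 hX a) (fun a => fP_eq hc (h0.trans h01) h1s hX1 a)
      (fun a n => cd_nest hc hn hq hw hz h0 h01 h1s a n)
    have e1 : (s + e * s' - s) / e = s' := by
      rw [add_sub_cancel_left]
      field_simp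
    rw [e1] at hPe
    have hlit : ∀ a n, Lit (S := S.chg (ZK c s) e he) (c.VK (s + e * s')) (cQ (ZK c s) e he h1 ((P a).coeff n)) := by
      intro a n
      have h2 := hPB a n
      rw [hB] at h2
      exact lit_chg (ZK c s) e he h1 (fun k ω ω' h => h) h2
    have hdeg : ∀ a n, (P a).coeff n ≠ 0 → wgt (wv d w) n < wv d w a := fun a n h => hPw.wgt_lt h
    have hq' : ∀ i, cQ (ZK c s) e he h1 (X (Sum.inl i)) - cQ (ZK c s) e he h1 ((P (Sum.inl i)).coeff 0) =
        Us (wv d w) s' (fun a => cQ (ZK c s) e he h1 (X1 a)) (Sum.inl i) := by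
      intro i
      have h2 : P (Sum.inl i) = MvPolynomial.C ((P (Sum.inl i)).coeff 0) :=
        const_of_wt (wv_one hw) fun n h => hdeg (Sum.inl i) n h
      have h3 : MvPolynomial.eval (Us (wv d w) s' (fun a => cQ (ZK c s) e he h1 (X1 a)))
          (MvPolynomial.map (cQ (ZK c s) e he h1) (P (Sum.inl i))) =
          cQ (ZK c s) e he h1 ((P (Sum.inl i)).coeff 0) := by
        rw [h2, MvPolynomial.map_C, MvPolynomial.eval_C, MvPolynomial.coeff_C, if_pos rfl]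
      rw [hPe, eval_tm, h3]
      ring
    have hU : Us (wv d w) s' (fun a => cQ (ZK c s) e he h1 (X1 a)) =
        Sum.elim (fun i => cQ (ZK c s) e he h1 (X (Sum.inl i)) - cQ (ZK c s) e he h1 ((P (Sum.inl i)).coeff 0))
          (fun j => sc _ (w j * s') * cQ (ZK c s) e he h1 (X1 (Sum.inr j))) := by
      funext a
      rcases a with i | j
      · exact (hq' i).symm
      · rfl
    refine ⟨fun i => cQ (ZK c s) e he h1 ((P (Sum.inl i)).coeff 0),
      fun j => MvPolynomial.map (cQ (ZK c s) e he h1) (P (Sum.inr j)),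
      fun j => sc _ (w j * s') * cQ (ZK c s) e he h1 (X1 (Sum.inr j)), fun i => ?_, fun j => ?_, fun j => ?_,
      fun j n h => ?_, fun i => hlit _ _, fun j n => ?_, fun h => absurd h hs',
      fun i => ⟨X (Sum.inl i) - sc S (e * s') * X1 (Sum.inl i), ?_, ?_⟩,
      fun j => ⟨sc S (w j * (e * s')) * X1 (Sum.inr j), ?_, ?_⟩⟩
    · rw [hq' i]
      have h2 := sc_mul_mem (S := S.chg (ZK c s) e he) (u := 1 * s') (r := 0)
        (f := cQ (ZK c s) e he h1 (X1 (Sum.inl i))) (by rw [one_mul]; exact h0') (mem_Id_nonpos le_rfl)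
      rw [one_mul, add_zero] at h2
      show sc _ (1 * s') * cQ (ZK c s) e he h1 (X1 (Sum.inl i)) ∈ _
      rw [one_mul]
      exact h2
    · have h2 := sc_mul_mem (S := S.chg (ZK c s) e he) (u := w j * s') (r := 0)
        (f := cQ (ZK c s) e he h1 (X1 (Sum.inr j))) (mul_nonneg (one_pos.trans (hw j)).le h0') (mem_Id_nonpos le_rfl)
      rw [add_zero] at h2
      exact h2
    · have h2 := hPe (Sum.inr j)
      rw [eval_tm, hU] at h2
      rw [h2, add_comm]
      rfl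
    · have h2 : (P (Sum.inr j)).coeff n ≠ 0 := by
        intro h3
        apply h
        rw [MvPolynomial.coeff_map, h3, map_zero]
      exact hdeg (Sum.inr j) n h2
    · rw [MvPolynomial.coeff_map]
      exact hlit _ _
    · have h2 := hX.q i
      have h3 := hX1.q i
      rw [sc_add h0 (mul_nonneg he.le h0')] at h3
      linear_combination h2 - h3
    · have h2 := hq' i
      have h3 : Us (wv d w) s' (fun a => cQ (ZK c s) e he h1 (X1 a)) (Sum.inl i) =
          cQ (ZK c s) e he h1 (sc S (e * s') * X1 (Sum.inl i)) := by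
        show sc _ (1 * s') * cQ (ZK c s) e he h1 (X1 (Sum.inl i)) = _
        have e2 : e * s' / e = s' := by field_simp
        rw [map_mul, cQ_sc (ZK c s) e he h1 (mul_nonneg he.le h0'), one_mul, e2]
      rw [h3] at h2
      rw [map_sub]
      linear_combination -h2
    · have h2 := hX1.R j
      rw [mul_add, sc_add (mul_nonneg (one_pos.trans (hw j)).le h0)
        (mul_nonneg (one_pos.trans (hw j)).le (mul_nonneg he.le h0'))] at h2
      rw [h2]
      ring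
    · have e2 : w j * (e * s') / e = w j * s' := by field_simp
      rw [map_mul, cQ_sc (ZK c s) e he h1 (mul_nonneg (one_pos.trans (hw j)).le (mul_nonneg he.le h0')), e2]

/-! ### all boxes of the zoom -/

/-- FRAMES OF THE ZOOM (all scales) -/
structure ZF (c : CD S d N r) (w : Fin N → ℝ) (z : Fin N) (s e : ℝ) (he : 0 < e) (h1 : e ≤ 1)
    (X : Fin (d + 1) ⊕ Fin N → QS S) (q0 : ℝ → Fin (d + 1) → QS (S.chg (ZK c s) e he))
    (F : ℝ → Fin N → MvPolynomial (Fin (d + 1) ⊕ Fin N) (QS (S.chg (ZK c s) e he)))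
    (γ : ℝ → Fin N → QS (S.chg (ZK c s) e he)) : Prop where
  fq : ∀ s', 0 ≤ s' → w z * (s + e * s') ≤ 1 → ∀ i, cQ (ZK c s) e he h1 (X (Sum.inl i)) - q0 s' i ∈ QS.Id _ s'
  fγ : ∀ s', 0 ≤ s' → w z * (s + e * s') ≤ 1 → ∀ j, γ s' j ∈ QS.Id _ (w j * s')
  fR : ∀ s', 0 ≤ s' → w z * (s + e * s') ≤ 1 → ∀ j, cQ (ZK c s) e he h1 (X (Sum.inr j)) = MvPolynomial.eval
    (Sum.elim (fun i => cQ (ZK c s) e he h1 (X (Sum.inl i)) - q0 s' i) (γ s')) (F s' j) + γ s' j
  deg : ∀ s' j n, (F s' j).coeff n ≠ 0 → wgt (Sum.elim (fun _ => 1) w) n < w j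
  litq : ∀ s' i, Lit (S := S.chg (ZK c s) e he) (c.VK (s + e * s')) (q0 s' i)
  litF : ∀ s' j n, Lit (S := S.chg (ZK c s) e he) (c.VK (s + e * s')) ((F s' j).coeff n)
  q00 : ∀ i, q0 0 i = 0
  F0 : ∀ j, F 0 j = 0
  sq : ∀ s', 0 ≤ s' → w z * (s + e * s') ≤ 1 → ∀ i, ∃ x : QS S, c.q0 (s + e * s') i - c.q0 s i = sc S s * x ∧
    q0 s' i = cQ (ZK c s) e he h1 x
  sγ : ∀ s', 0 ≤ s' → w z * (s + e * s') ≤ 1 → ∀ j, ∃ y : QS S, c.γ (s + e * s') j = sc S (w j * s) * y ∧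
    γ s' j = cQ (ZK c s) e he h1 y

theorem exists_ZF {ρ : ℝ} (hc : c.Bx w z) (hn : c.Num w z ρ) (hq : Rl c.q ⊥) (hw : ∀ j, 1 < w j)
    (hz : ∀ j, w j ≤ w z) {s e : ℝ} (h0 : 0 ≤ s) (he : 0 < e) (h1 : e ≤ 1) (hse : w z * s + e ≤ 1)
    {X : Fin (d + 1) ⊕ Fin N → QS S} (hX : IsX c w s X) : ∃ q0 F γ, ZF c w z s e he h1 X q0 F γ := by
  have key : ∀ s' : ℝ, ∃ (q0 : Fin (d + 1) → QS (S.chg (ZK c s) e he))
      (F : Fin N → MvPolynomial (Fin (d + 1) ⊕ Fin N) (QS (S.chg (ZK c s) e he)))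
      (γ : Fin N → QS (S.chg (ZK c s) e he)),
      (0 ≤ s' → w z * (s + e * s') ≤ 1 → ∀ i, cQ (ZK c s) e he h1 (X (Sum.inl i)) - q0 i ∈ QS.Id _ s') ∧
      (0 ≤ s' → w z * (s + e * s') ≤ 1 → ∀ j, γ j ∈ QS.Id _ (w j * s')) ∧
      (0 ≤ s' → w z * (s + e * s') ≤ 1 → ∀ j, cQ (ZK c s) e he h1 (X (Sum.inr j)) = MvPolynomial.eval
        (Sum.elim (fun i => cQ (ZK c s) e he h1 (X (Sum.inl i)) - q0 i) γ) (F j) + γ j) ∧
      (∀ j n, (F j).coeff n ≠ 0 → wgt (Sum.elim (fun _ => 1) w) n < w j) ∧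
      (∀ i, Lit (S := S.chg (ZK c s) e he) (c.VK (s + e * s')) (q0 i)) ∧
      (∀ j n, Lit (S := S.chg (ZK c s) e he) (c.VK (s + e * s')) ((F j).coeff n)) ∧
      (s' = 0 → (∀ i, q0 i = 0) ∧ ∀ j, F j = 0) ∧
      (0 ≤ s' → w z * (s + e * s') ≤ 1 →
        ∀ i, ∃ x : QS S, c.q0 (s + e * s') i - c.q0 s i = sc S s * x ∧ q0 i = cQ (ZK c s) e he h1 x) ∧
      (0 ≤ s' → w z * (s + e * s') ≤ 1 →
        ∀ j, ∃ y : QS S, c.γ (s + e * s') j = sc S (w j * s) * y ∧ γ j = cQ (ZK c s) e he h1 y) := by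
    intro s'
    by_cases h : 0 ≤ s' ∧ w z * (s + e * s') ≤ 1
    · obtain ⟨q0, F, γ, a1, a2, a3, a4, a5, a6, a7, a8, a9⟩ := exists_frm hc hn hq hw hz h0 he h1 hse hX h.1 h.2
      exact ⟨q0, F, γ, fun _ _ => a1, fun _ _ => a2, fun _ _ => a3, a4, a5, a6, a7, fun _ _ => a8, fun _ _ => a9⟩
    · refine ⟨fun _ => 0, fun _ => 0, fun _ => 0, fun h2 h3 => absurd ⟨h2, h3⟩ h, fun h2 h3 => absurd ⟨h2, h3⟩ h,
        fun h2 h3 => absurd ⟨h2, h3⟩ h, fun j n h2 => absurd (MvPolynomial.coeff_zero n) h2,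
        fun i => (LitR (S := S.chg (ZK c s) e he) (c.VK (s + e * s'))).zero_mem, fun j n => ?_,
        fun _ => ⟨fun _ => rfl, fun _ => rfl⟩, fun h2 h3 => absurd ⟨h2, h3⟩ h, fun h2 h3 => absurd ⟨h2, h3⟩ h⟩
      rw [MvPolynomial.coeff_zero]
      exact (LitR (S := S.chg (ZK c s) e he) (c.VK (s + e * s'))).zero_mem
  choose q0 F γ a1 a2 a3 a4 a5 a6 a7 a8 a9 using key
  exact ⟨q0, F, γ, a1, a2, a3, a4, a5, a6, (a7 0 rfl).1, (a7 0 rfl).2, a8, a9⟩

/-- ALL AXIOMS OF THE BOXES OF THE ZOOM, and the strong form of the zoom; `num` = row NUM of helper33 -/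
theorem zm_bx {ρ : ℝ} (hl : c.Ln) (hb : c.Bx w z) (hn : c.Num w z ρ) (hw : ∀ j, 1 < w j) (hz : ∀ j, w j ≤ w z)
    {s e : ℝ} (h0 : 0 ≤ s) (he : 0 < e) (h1 : e ≤ 1) (hse : w z * s + e ≤ 1) {Z : ∀ k, Setoid (S.F k).Ω}
    (hZ : ∀ k, Z k = Setoid.ker (c.VK s k)) {X : Fin (d + 1) → QS S} {Y : Fin N → QS S}
    {A : Fin r → Fin (d + 1) → QS S} {g' : ℕ} {Cf : Fin r → Fin N → Fin (g' + 1) → QS S} (hT : c.ZT w s X Y A g' Cf)
    (num : ∀ c' : CD (S.chg Z e he) d N r, c.ZR w z s e he h1 Z c' → c'.Num w z ρ) :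
    ∃ (m' : ℝ → ℕ) (G' : ∀ s', Fin (m' s') → QS (S.chg Z e he)) (q0' : ℝ → Fin (d + 1) → QS (S.chg Z e he))
      (F' : ℝ → Fin N → MvPolynomial (Fin (d + 1) ⊕ Fin N) (QS (S.chg Z e he))) (γ' : ℝ → Fin N → QS (S.chg Z e he)),
      (c.zm Z e he h1 s X Y A g' Cf m' G' q0' F' γ').Bx w z ∧
        Pool.Agent.Helper10.BLD.ZRs c w z s e he h1 Z (c.zm Z e he h1 s X Y A g' Cf m' G' q0' F' γ') := by
  obtain rfl : Z = ZK c s := funext hZ
  have hz0 : 0 < w z := one_pos.trans (hw z)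
  have hws : w z * s ≤ 1 := by linarith
  have hr : ∀ s', w z * s' ≤ 1 → w z * (s + e * s') ≤ 1 := fun s' h => by nlinarith
  have hX : IsX c w s (Sum.elim X Y) := ⟨hT.hX, hT.hY⟩
  obtain ⟨q0', F', γ', hF⟩ := exists_ZF hb hn hl.real hw hz h0 he h1 hse hX
  obtain ⟨G', hG'⟩ : ∃ G' : ∀ _s' : ℝ, Fin (gm d N (w z)) → QS (S.chg (ZK c s) e he),
    G' = fun s' => gG (w z) (q0' s') (F' s') := ⟨_, rfl⟩
  obtain ⟨c', hc'⟩ : ∃ c', c' = c.zm (ZK c s) e he h1 s X Y A g' Cf (fun _ => gm d N (w z)) G' q0' F' γ' := ⟨_, rfl⟩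
  have hZR : c.ZR w z s e he h1 (ZK c s) c' := hc' ▸ CD.zm_ZR hl hb hT hZ
  have hln : c'.Ln := hc' ▸ CD.zm_ln hl hb hT hZ (hn.pr0 s h0 hws) hw hz h0 hse
  have hn' := num c' hZR
  have hfr : Fr c' w z := by
    subst hc'
    exact ⟨fun s' => chg_VB (ZK c s) e he (hb.bdd _), fun s' a1 a2 => hF.fq s' a1 (hr s' a2),
      fun s' a1 a2 => hF.fγ s' a1 (hr s' a2), fun s' a1 a2 => hF.fR s' a1 (hr s' a2), hF.deg, hF.litq, hF.litF⟩
  have hK : ∀ s', c'.K s' = chgL (ZK c s) e he (c.K (s + e * s')) := by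
    intro s'
    subst hc'
    exact (chgL_io (ZK c s) e he (hb.bdd _)).symm
  have hlitG : ∀ s' a, Lit (c'.VK s') (c'.G s' a) := by
    intro s' a
    subst hc'
    subst hG'
    exact gG_of (p := fun f => Lit (S := S.chg (ZK c s) e he) (c.VK (s + e * s')) f) (hF.litq s') (hF.litF s') a
  have hgq : ∀ s' i, ∃ a, c'.q0 s' i = c'.G s' a := by
    intro s' i
    subst hc'
    subst hG'
    exact gG_q (w z) (q0' s') (F' s') i
  have hgF : ∀ s' j n, (c'.F s' j).coeff n ≠ 0 → ∃ a, (c'.F s' j).coeff n = c'.G s' a := by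
    intro s' j n h
    have h2 := hfr.deg s' j n h
    subst hc'
    subst hG'
    exact gG_F (q0' s') (F' s') j (mem_expF (w := wv d w) (wv_one hw) (h2.trans_le (hz j)))
  have hpt : ∀ s', 0 ≤ s' → w z * s' ≤ 1 → c'.K s' ≤ vd c'.q (w z * s') ⊔ vd c'.R (w z * s') := fun s' a1 a2 =>
    hfr.pt hn' hw hz hln.real a1 a2
  refine ⟨fun _ => gm d N (w z), G', q0', F', γ', ?_, ?_⟩
  · rw [← hc']
    refine ⟨hfr.bdd, ?_, hlitG, ?_, ?_, hpt, ?_, hfr.fq, hfr.fγ, hfr.fR, hfr.deg, hfr.litq, hfr.litF,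
      fun s' i _ => hgq s' i, hgF, ?_, ?_⟩
    · -- zero
      intro k ω ω' _ _ h3
      subst hc'
      show c.VK (s + e * 0) k ω = c.VK (s + e * 0) k ω'
      have e1 : s + e * 0 = s := by ring
      rw [e1]
      exact h3.1
    · -- generators
      intro s' a1 a2
      refine hfr.gen hn' hw hz hln.real a1 a2 ?_ ?_ ?_
      · rw [vd_le]
        exact fun a => (hlitG s' a).dg_le (hfr.bdd s') le_rfl
      · intro i
        obtain ⟨a, ha⟩ := hgq s' i
        rw [ha]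
        exact dg_le_vd (c'.G s') 1 a
      · intro j n
        by_cases h : (c'.F s' j).coeff n = 0
        · rw [h]
          exact (Kn _ 1 le_rfl (vd (c'.G s') 1)).zero_mem
        · obtain ⟨a, ha⟩ := hgF s' j n h
          rw [ha]
          exact dg_le_vd (c'.G s') 1 a
    · -- monotone
      intro s1 s2 a1 a2 a3
      rw [hK, hK]
      exact chgL_mono _ _ _ (hb.mono _ _ (by positivity) (by nlinarith) (hr s2 a3))
    · -- the curve knows the box
      intro s' a1 a2 i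
      have hs'1 : s' ≤ 1 := by nlinarith [hw z]
      have hse1 : s + e ≤ 1 := by nlinarith [hw z]
      have hs1 : s + e * s' ≤ 1 := by nlinarith
      have hq0 : c'.q 0 = cQ (ZK c s) e he h1 (X 0) := by rw [hc']; rfl
      refine CD.K_le_xi_of (w := w) (z := z) hln a2 (hpt s' a1 a2) i ?_
      -- the information of the base point beyond the height
      have b1 : c'.P ≤ (c'.xi i ⊔ dg (c'.q 0) s') ⊔ dg (c'.q 0) 1 := (hln.P_le i).trans
        (sup_le (le_sup_left.trans (le_sup_left.trans le_sup_left)) le_sup_right)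
      obtain ⟨T, hTd⟩ : ∃ T, T = dg (c'.q 0) 1 := ⟨_, rfl⟩
      have b2 : c'.K s' ≤ chgL (ZK c s) e he (c.xi i) ⊔ dg (c'.q 0) s' := by
        rw [hK, hq0, cQ_dg _ _ _ _ _ hs'1, ← chgL_sup]
        refine chgL_le_of he (hb.bdd s) ((hb.xi _ (by positivity) (hr s' a2) i).trans ?_)
        refine sup_le (le_sup_left.trans le_sup_left) ?_
        have e1 : c.q 0 = sc S s * X 0 + c.q0 s 0 := by
          rw [← hT.hX 0]
          ring
        rw [e1]
        refine (dg_add_le _ _ hs1).trans (sup_le ?_ ?_)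
        · rw [dg_scl (X 0) h0 hs1, add_sub_cancel_left]
          exact le_sup_right.trans le_sup_left
        · exact (dg_mono _ hs1).trans (((hb.litq s 0).dg_le (hb.bdd s) le_rfl).trans le_sup_right)
      have b3 : h (dg (c'.q 0) 1) (chgL (ZK c s) e he (c.xi i)) = 1 := by
        apply le_antisymm ((h_le_H _ _).trans (H_dg_le _ zero_le_one))
        rw [hq0, cQ_dg _ _ _ _ _ le_rfl, mul_one, h_chgK he (hb.bdd s), le_div_iff₀ he, one_mul]
        have e1 := CD.time_K hl hb h0 hws (by linarith) i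
        have e2 : dg (c.q 0) 1 ≤ dg (X 0) (1 - s) ⊔ (c.xi i ⊔ c.K s) := by
          have e3 : c.q 0 = sc S s * X 0 + c.q0 s 0 := by
            rw [← hT.hX 0]
            ring
          rw [e3]
          refine (dg_add_le _ _ (le_refl (1 : ℝ))).trans (sup_le ?_ ?_)
          · rw [dg_scl (X 0) h0 le_rfl]
            exact le_sup_left
          · exact (((hb.litq s 0).dg_le (hb.bdd s) le_rfl).trans le_sup_right).trans le_sup_right
        have e3 : h (dg (c.q 0) 1) (c.xi i ⊔ c.K s) ≤ h (dg (X 0) (1 - s)) (c.xi i ⊔ c.K s) := by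
          refine (h_mono (B := c.xi i ⊔ c.K s) e2).trans (le_of_eq (h_sup_right_of_le le_rfl))
        have e4 : h (dg (X 0) (1 - s)) (c.xi i ⊔ c.K s) ≤ h (dg (X 0) (1 - s)) (dg (X 0) e ⊔ (c.xi i ⊔ c.K s)) +
          h (dg (X 0) e) (c.xi i ⊔ c.K s) := h_triangle _ _ _
        have e5 : h (dg (X 0) (1 - s)) (dg (X 0) e ⊔ (c.xi i ⊔ c.K s)) ≤ 1 - s - e :=
          (h_anti le_sup_left).trans (h_dg_dg _ (by linarith))
        linarith
      have b4 : 1 - s' ≤ h T (c'.K s' ⊔ (c'.xi i ⊔ dg (c'.q 0) s')) := by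
        have e1 : h T (chgL (ZK c s) e he (c.xi i) ⊔ dg (c'.q 0) s') ≤ h T (c'.K s' ⊔ (c'.xi i ⊔ dg (c'.q 0) s')) :=
          h_anti (sup_le b2 (sup_le_sup_right (hZR.xi i) _))
        have e2 := h_triangle T (dg (c'.q 0) s') (chgL (ZK c s) e he (c.xi i))
        have e3 : h (dg (c'.q 0) s') (chgL (ZK c s) e he (c.xi i)) ≤ s' := (h_le_H _ _).trans (H_dg_le _ a1)
        rw [sup_comm (dg (c'.q 0) s')] at e2
        rw [hTd] at e1 e2 ⊢
        linarith
      have b5 : h T (c'.xi i ⊔ dg (c'.q 0) s') ≤ 1 - s' := by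
        rw [hTd]
        exact (h_anti le_sup_right).trans (h_dg_dg _ hs'1)
      have b6 : I (c'.K s') T (c'.xi i ⊔ dg (c'.q 0) s') = 0 := by
        have e1 := I_eq' (c'.K s') T (c'.xi i ⊔ dg (c'.q 0) s')
        have e2 := I_nonneg (c'.K s') T (c'.xi i ⊔ dg (c'.q 0) s')
        linarith
      refine I_zero_mono b6 le_sup_left ?_
      rw [hTd]
      exact b1.trans (sup_comm _ _).le
    · exact fun i => by rw [hc']; exact hF.q00 i
    · exact fun j => by rw [hc']; exact hF.F0 j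
  · rw [← hc']
    refine ⟨hZR, fun s' a1 a2 i => ?_, fun s' a1 a2 j => ?_⟩
    · rw [hc']
      exact hF.sq s' a1 a2 i
    · rw [hc']
      exact hF.sγ s' a1 a2 j

end

end Pool.Agent.Helper71.BLD
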