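import Pool.Agent.Helper71.BLD.Cz

/-! Corners: consequences of the FRAMES and of the numbers, without the generators of the boxes: thickness, (D), the box is
a function of the digits of level `w z * s` of the point, the box is generated by the centre and by the coefficients of
the frame. -/

set_option autoImplicit false

namespace Pool.Agent.Helper71.BLD

open Finset Filter Topology Pool.Agent.Helper69.RK Pool.Agent.Helper31.EC Pool.Agent.Helper31.EC.Sp
open Pool.Agent.Helper31.EC.QS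
open Pool.Agent.Helper57.TA
open Pool.Agent.Helper13.AM
open Pool.Agent.Helper82.TP (Lit)

noncomputable section

variable {S : Sp} {d N r : ℕ}

/-- FRAMES of a corner: the axioms of the boxes which concern only the frames -/
structure Fr (c : CD S d N r) (w : Fin N → ℝ) (z : Fin N) : Prop where
  bdd : ∀ s, Bdd (c.VK s)
  fq : ∀ s, 0 ≤ s → w z * s ≤ 1 → ∀ i, c.q i - c.q0 s i ∈ QS.Id S s
  fγ : ∀ s, 0 ≤ s → w z * s ≤ 1 → ∀ j, c.γ s j ∈ QS.Id S (w j * s)
  fR : ∀ s, 0 ≤ s → w z * s ≤ 1 → ∀ j, c.R j =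
    MvPolynomial.eval (Sum.elim (fun i => c.q i - c.q0 s i) (c.γ s)) (c.F s j) + c.γ s j
  deg : ∀ s j n, (c.F s j).coeff n ≠ 0 → wgt (Sum.elim (fun _ => 1) w) n < w j
  litq : ∀ s i, Lit (c.VK s) (c.q0 s i)
  litF : ∀ s j n, Lit (c.VK s) ((c.F s j).coeff n)

variable {c : CD S d N r} {w : Fin N → ℝ} {z : Fin N}

theorem Fr.of_bx (h : c.Bx w z) : Fr c w z := ⟨h.bdd, h.fq, h.fγ, h.fR, h.deg, h.litq, h.litF⟩

namespace Fr

variable (hc : Fr c w z) (hw : ∀ j, 1 < w j) (hz : ∀ j, w j ≤ w z)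

include hc

theorem litq_le (s : ℝ) (i : Fin (d + 1)) : dg (c.q0 s i) 1 ≤ c.K s := (hc.litq s i).dg_le (hc.bdd s) le_rfl

theorem litF_le (s : ℝ) (j : Fin N) (n : Fin (d + 1) ⊕ Fin N →₀ ℕ) : dg ((c.F s j).coeff n) 1 ≤ c.K s :=
  (hc.litF s j n).dg_le (hc.bdd s) le_rfl

include hw

/-- variables of the frame polynomials have lower weight -/
theorem low {s : ℝ} {j l : Fin N} {n : Fin (d + 1) ⊕ Fin N →₀ ℕ} (hn : (c.F s j).coeff n ≠ 0)
    (hx : Sum.inr l ∈ n.support) : w l < w j := by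
  have hdeg := hc.deg s j n hn
  refine lt_of_le_of_lt ?_ hdeg
  have h2 : (1 : ℝ) ≤ (n (Sum.inr l) : ℝ) := by
    exact_mod_cast Nat.one_le_iff_ne_zero.mpr (Finsupp.mem_support_iff.mp hx)
  have h3 : (n (Sum.inr l) : ℝ) * w l ≤ wgt (Sum.elim (fun _ : Fin (d + 1) => (1 : ℝ)) w) n := by
    unfold wgt
    have h4 := Finset.single_le_sum (f := fun a => (n a : ℝ) * Sum.elim (fun _ : Fin (d + 1) => (1 : ℝ)) w a)
      (s := univ) (fun a _ => by
        refine mul_nonneg (Nat.cast_nonneg _) ?_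
        rcases a with a | a
        · exact zero_le_one
        · exact (one_pos.trans (hw a)).le) (mem_univ (Sum.inr l))
    exact h4
  nlinarith [hw l]

/-- ALL DIGITS of level `k` from the frame: the coefficients of the frame are known to `A`, the digits of the box
coordinates too -/
theorem pt_le_of {s k : ℝ} (h0 : 0 ≤ s) (h1 : w z * s ≤ 1) (hk : k ≤ 1) {A : S.L} (hA : ∀ i, dg (c.q0 s i) 1 ≤ A)
    (hA' : ∀ j n, dg ((c.F s j).coeff n) 1 ≤ A) (hq : ∀ i, dg (c.q i - c.q0 s i) k ≤ A) (T : Fin N → Prop)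
    (hT : ∀ j l, T j → w l < w j → T l) (hR : ∀ j, T j → dg (c.γ s j) k ≤ A) :
    (∀ i, dg (c.q i) k ≤ A) ∧ ∀ j, T j → dg (c.R j) k ≤ A := by
  constructor
  · intro i
    have e : c.q i = (c.q i - c.q0 s i) + c.q0 s i := by ring
    rw [e]
    exact (dg_add_le _ _ hk).trans (sup_le (hq i) ((dg_mono _ hk).trans (hA i)))
  · intro j hj
    rw [hc.fR s h0 h1 j]
    refine (Kn S k hk A).add_mem (eval_mem_sub _ _ _ (fun n => (dg_mono _ hk).trans (hA' j n)) fun n hn x hx => ?_)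
      (hR j hj)
    rcases x with i | l
    · exact hq i
    · exact hR l (hT j l hj (hc.low hw hn hx))

/-- box coordinates are known to the box, to the base point and to the coordinates of at most the same weight -/
theorem gam_le {s k : ℝ} (h0 : 0 ≤ s) (h1 : w z * s ≤ 1) (hk : k ≤ 1)
    {X : S.L} : ∀ j, (∀ l, w l ≤ w j → dg (c.R l) k ≤ X) → dg (c.γ s j) k ≤ X ⊔ (c.K s ⊔ c.P) := by
  intro j
  induction hn : (univ.filter fun l => w l < w j).card using Nat.strong_induction_on generalizing j with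
  | _ n ih =>
    intro hX
    have e1 : c.γ s j = c.R j -
        MvPolynomial.eval (Sum.elim (fun i => c.q i - c.q0 s i) (c.γ s)) (c.F s j) := by
      rw [hc.fR s h0 h1 j]
      ring
    rw [e1]
    have hR : c.R j ∈ Kn S k hk (X ⊔ (c.K s ⊔ c.P)) := (hX j le_rfl).trans le_sup_left
    refine (Kn S k hk (X ⊔ (c.K s ⊔ c.P))).sub_mem hR (eval_mem_sub _ _ _ (fun n => ?_) fun n hn0 x hx => ?_)
    · exact (dg_mono _ hk).trans ((hc.litF_le s j n).trans (le_sup_left.trans le_sup_right))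
    · rcases x with i | l
      · show dg (c.q i - c.q0 s i) k ≤ _
        refine (dg_mono _ hk).trans ((dg_sub_le _ _ le_rfl).trans (sup_le ?_ ?_))
        · exact (dg_le_vd c.q 1 i).trans (le_sup_right.trans le_sup_right)
        · exact (hc.litq_le s i).trans (le_sup_left.trans le_sup_right)
      · have hl : w l < w j := hc.low hw hn0 hx
        show dg (c.γ s l) k ≤ _
        refine ih _ ?_ l rfl fun l' hl' => hX l' (hl'.trans hl.le)
        rw [← hn]
        apply Finset.card_lt_card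
        rw [Finset.ssubset_iff_of_subset]
        · exact ⟨l, by simpa using hl, by simp⟩
        · intro a ha
          simp only [mem_filter, mem_univ, true_and] at ha ⊢
          exact ha.trans hl

/-- thickness: the box is thin in the direction of `z` -/
theorem zk {s : ℝ} (h0 : 0 ≤ s) (h1 : w z * s ≤ 1) :
    dg (c.R z) (w z * s) ≤ c.K s ⊔ (vd (c.M z) (w z * s) ⊔ c.P) := by
  have e1 : c.R z - MvPolynomial.eval (Sum.elim (fun i => c.q i - c.q0 s i) (c.γ s)) (c.F s z) ∈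
      QS.Id S (w z * s) := by
    have e2 : c.R z - MvPolynomial.eval (Sum.elim (fun i => c.q i - c.q0 s i) (c.γ s)) (c.F s z) = c.γ s z := by
      rw [hc.fR s h0 h1 z]
      ring
    rw [e2]
    exact hc.fγ s h0 h1 z
  rw [dg_eq_of_sub_mem e1 le_rfl h1]
  refine eval_mem_sub (Kn S (w z * s) h1 (c.K s ⊔ (vd (c.M z) (w z * s) ⊔ c.P))) _ _ (fun n => ?_)
    fun n hn0 x hx => ?_
  · exact (dg_mono _ h1).trans ((hc.litF_le s z n).trans le_sup_left)
  · rcases x with i | l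
    · show dg (c.q i - c.q0 s i) (w z * s) ≤ _
      refine (dg_mono _ h1).trans ((dg_sub_le _ _ le_rfl).trans (sup_le ?_ ?_))
      · exact (dg_le_vd c.q 1 i).trans (le_sup_right.trans le_sup_right)
      · exact (hc.litq_le s i).trans le_sup_left
    · have hl : w l < w z := hc.low hw hn0 hx
      have h5 := hc.gam_le hw (X := vd (c.M z) (w z * s)) h0 h1 h1 l fun l' hl' =>
        dg_le_vd (c.M z) (w z * s) ⟨l', fun he => absurd (he ▸ hl') (not_le.mpr hl)⟩
      show dg (c.γ s l) (w z * s) ≤ _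
      refine h5.trans ?_
      order

end Fr

/-- the homogeneous corner of helper33, from the frames and the numbers -/
def Fr.cor {ρ : ℝ} (hc : Fr c w z) (hn : c.Num w z ρ) (hw : ∀ j, 1 < w j) : Helper33.CM.HCor S.L where
  F := ⊥
  q := c.P
  M := fun k => vd (c.M z) k
  z := fun k => dg (c.R z) k
  be := c.K
  B := 1
  N := (N : ℝ) - 1
  W := ∑ j ∈ univ.erase z, w j
  d := (d : ℝ) + 1
  w := w z
  A₀ := (d : ℝ) + 1 + (∑ j ∈ univ.erase z, w j) + (1 - ρ) * w z
  hB := zero_le_one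
  hw := one_pos.trans (hw z)
  Fq := bot_le
  monoM := fun _ _ _ h _ => vd_mono _ h
  monoz := fun _ _ _ h _ => dg_mono _ h
  hbe := fun s h0 h1 => (h_bot _).trans (hn.hbe s h0 h1)
  pr0 := fun s h0 h1 => hn.pr0 s h0 h1
  pr1 := fun k h0 h1 => hn.pr1 k h0 h1
  pr2 := fun s k h0 h1 h2 => hn.pr2 s k h0 h1 h2
  zk := fun _ h0 h1 => hc.zk hw h0 h1

section

variable {ρ : ℝ} (hc : Fr c w z) (hn : c.Num w z ρ) (hw : ∀ j, 1 < w j) (hz : ∀ j, w j ≤ w z)

theorem Fr.cor_vis : (hc.cor hn hw).Vis := fun s h0 h1 => hn.vis s h0 h1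

theorem Fr.cor_kap : (hc.cor hn hw).κ = 1 - ρ := by
  have h0 := one_pos.trans (hw z)
  show ((d : ℝ) + 1 + (∑ j ∈ univ.erase z, w j) + (1 - ρ) * w z - ((d : ℝ) + 1) - ∑ j ∈ univ.erase z, w j) / w z = 1 - ρ
  rw [div_eq_iff h0.ne']
  ring

include hc hn hw

/-- (D) from the bottom -/
theorem Fr.h_z {k : ℝ} (h0 : 0 ≤ k) (h1 : k ≤ 1) : h (dg (c.R z) k) (vd (c.M z) 1 ⊔ c.P) = (1 - ρ) * k := by
  have h2 := (hc.cor_vis hn hw).h_z_O (k := k) h0 h1
  rw [hc.cor_kap] at h2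
  exact h2

/-- (D) given the box -/
theorem Fr.h_z_K {s k : ℝ} (h0 : 0 ≤ s) (h1 : w z * s ≤ k) (h2 : k ≤ 1) :
    h (dg (c.R z) k) (c.K s ⊔ (vd (c.M z) 1 ⊔ c.P)) = (1 - ρ) * (k - w z * s) := by
  have h3 := (hc.cor_vis hn hw).h_z_be (s := s) (k := k) h0 h1 h2
  rw [hc.cor_kap] at h3
  exact h3

/-- (D) -/
theorem Fr.h_zz {a b : ℝ} (h1 : 0 ≤ a) (h2 : a ≤ b) (h3 : b ≤ 1) :
    h (dg (c.R z) b) (dg (c.R z) a ⊔ (vd (c.M z) 1 ⊔ c.P)) = (1 - ρ) * (b - a) := by
  have h4 := Helper33.CM.h_split (A := dg (c.R z) b) (B := dg (c.R z) a) (C := vd (c.M z) 1 ⊔ c.P)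
    ((dg_mono _ h2).trans le_sup_left)
  rw [hc.h_z hn hw (h1.trans h2) h3, hc.h_z hn hw h1 (h2.trans h3)] at h4
  linarith

end

/-- the digits of the base point, over the box -/
theorem h_P_K {ρ : ℝ} (hn : c.Num w z ρ) (hq : Rl c.q ⊥) {s : ℝ} (h0 : 0 ≤ s) (h1 : w z * s ≤ 1) :
    h c.P (c.K s) = ((d : ℝ) + 1) * (1 - s) := by
  have h7 := hn.pr0 s h0 h1
  have h8 : H c.P = (d : ℝ) + 1 := by
    have h9 : h (vd c.q 1) ⊥ = (Fintype.card (Fin (d + 1)) : ℝ) := hq
    rw [h_bot, Fintype.card_fin] at h9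
    push_cast at h9
    exact h9
  rw [I_comm, I_eq, h_bot, sup_bot_eq] at h7
  linarith

/-- all digits, over the box -/
theorem Fr.h_O_K {ρ : ℝ} (hc : Fr c w z) (hn : c.Num w z ρ) (hw : ∀ j, 1 < w j) (hq : Rl c.q ⊥) {s : ℝ} (h0 : 0 ≤ s)
    (h1 : w z * s ≤ 1) : h c.O (c.K s) =
      ((d : ℝ) + 1) * (1 - s) + ((N : ℝ) - 1 - (∑ j ∈ univ.erase z, w j) * s) + (1 - ρ) * (1 - w z * s) := by
  have e1 : c.O = c.P ⊔ (vd (c.M z) 1 ⊔ dg (c.R z) 1) := by
    unfold CD.O CD.P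
    rw [CD.vdR_eq (z := z) 1, sup_comm (dg (c.R z) 1)]
  have h2 := h_P_K hn hq h0 h1
  have h3 := hn.pr2 s 1 h0 h1 le_rfl
  have h4 := hc.h_z_K hn hw h0 h1 le_rfl
  have e2 : vd (c.M z) 1 ⊔ (c.P ⊔ c.K s) = c.K s ⊔ (vd (c.M z) 1 ⊔ c.P) := by
    rw [← sup_assoc, sup_comm]
  rw [e1, h_chain, h_chain, e2, sup_comm c.P (c.K s), h2, h3, h4]
  ring

/-- digits of small functions -/
theorem H_dg_Id {f : QS S} {s k : ℝ} (h0 : 0 ≤ s) (hsk : s ≤ k) (hk : k ≤ 1) (hf : f ∈ QS.Id S s) :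
    H (dg f k) ≤ k - s := by
  obtain ⟨X, hX, -⟩ := exists_div' h0 (hsk.trans hk) hf
  rw [hX, dg_scl X h0 hk]
  exact H_dg_le X (by linarith)

/-- digits of the box coordinates other than `z` -/
def bxd (c : CD S d N r) (z : Fin N) (s k : ℝ) : S.L :=
  (univ.sup fun i => dg (c.q i - c.q0 s i) k) ⊔ (univ.erase z).sup fun j => dg (c.γ s j) k

theorem Fr.h_bxd (hc : Fr c w z) (hw : ∀ j, 1 < w j) (hz : ∀ j, w j ≤ w z) {s k : ℝ} (h0 : 0 ≤ s) (h1 : w z * s ≤ k)
    (hk : k ≤ 1) (A : S.L) : h (bxd c z s k) A ≤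
      ((d : ℝ) + 1) * (k - s) + (((N : ℝ) - 1) * k - (∑ j ∈ univ.erase z, w j) * s) := by
  have hs1 : s ≤ k := by
    have := hw z
    nlinarith
  have hj : ∀ j, w j * s ≤ k := fun j => (mul_le_mul_of_nonneg_right (hz j) h0).trans h1
  refine (h_sup_le _ _ _).trans (add_le_add ?_ ?_)
  · refine (h_finsup_le univ _ A).trans ?_
    have h2 : ∀ i ∈ (univ : Finset (Fin (d + 1))), h (dg (c.q i - c.q0 s i) k) A ≤ k - s := fun i _ =>
      (h_le_H _ _).trans (H_dg_Id h0 hs1 hk (hc.fq s h0 (h1.trans hk) i))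
    refine (Finset.sum_le_sum h2).trans (le_of_eq ?_)
    rw [Finset.sum_const, Finset.card_univ, Fintype.card_fin, nsmul_eq_mul]
    push_cast
    ring
  · refine (h_finsup_le (univ.erase z) _ A).trans ?_
    have h2 : ∀ j ∈ univ.erase z, h (dg (c.γ s j) k) A ≤ k - w j * s := fun j _ =>
      (h_le_H _ _).trans (H_dg_Id (mul_nonneg (one_pos.trans (hw j)).le h0) (hj j) hk (hc.fγ s h0 (h1.trans hk) j))
    refine (Finset.sum_le_sum h2).trans (le_of_eq ?_)
    rw [Finset.sum_sub_distrib, Finset.sum_const, Finset.card_erase_of_mem (mem_univ z), Finset.card_univ,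
      Fintype.card_fin, nsmul_eq_mul, Finset.sum_mul]
    have h3 : 1 ≤ N := by have := z.2; omega
    rw [Nat.cast_sub h3, Nat.cast_one]

/-- the point without `z` to level `k`, from the box coordinates -/
theorem Fr.low_le (hc : Fr c w z) (hw : ∀ j, 1 < w j) (hz : ∀ j, w j ≤ w z) {s k : ℝ} (h0 : 0 ≤ s) (h1 : w z * s ≤ 1)
    (hk : k ≤ 1) {A : S.L} (hA : ∀ i, dg (c.q0 s i) 1 ≤ A) (hA' : ∀ j n, dg ((c.F s j).coeff n) 1 ≤ A) :
    vd c.q k ⊔ vd (c.M z) k ≤ bxd c z s k ⊔ A := by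
  have hq : ∀ i, dg (c.q i - c.q0 s i) k ≤ bxd c z s k ⊔ A := fun i =>
    ((Finset.le_sup (f := fun i => dg (c.q i - c.q0 s i) k) (mem_univ i)).trans le_sup_left).trans le_sup_left
  have h2 := hc.pt_le_of hw h0 h1 hk (A := bxd c z s k ⊔ A) (fun i => (hA i).trans le_sup_right)
    (fun j n => (hA' j n).trans le_sup_right) hq (fun j => j ≠ z)
    (fun j l _ hl => by
      rintro rfl
      exact absurd (hz j) (not_le.mpr hl))
    (fun j hj => ((Finset.le_sup (f := fun j => dg (c.γ s j) k) (Finset.mem_erase.mpr ⟨hj, mem_univ j⟩)).trans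
      le_sup_right).trans le_sup_left)
  refine sup_le ?_ ?_
  · rw [vd_le]
    exact h2.1
  · rw [vd_le]
    exact fun j => h2.2 j.1 j.2

/-- `z` to level `w z * s`, from the point without `z` -/
theorem Fr.z_le (hc : Fr c w z) (hw : ∀ j, 1 < w j) (hz : ∀ j, w j ≤ w z) {s k : ℝ} (h0 : 0 ≤ s) (h1 : w z * s ≤ k)
    (hk : k ≤ 1) {A : S.L} (hA' : ∀ j n, dg ((c.F s j).coeff n) 1 ≤ A) :
    dg (c.R z) (w z * s) ≤ bxd c z s k ⊔ A := by
  have hzs : w z * s ≤ 1 := h1.trans hk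
  have e1 : c.R z - MvPolynomial.eval (Sum.elim (fun i => c.q i - c.q0 s i) (c.γ s)) (c.F s z) ∈
      QS.Id S (w z * s) := by
    have e2 : c.R z - MvPolynomial.eval (Sum.elim (fun i => c.q i - c.q0 s i) (c.γ s)) (c.F s z) = c.γ s z := by
      rw [hc.fR s h0 hzs z]
      ring
    rw [e2]
    exact hc.fγ s h0 hzs z
  rw [dg_eq_of_sub_mem e1 le_rfl hzs]
  refine (dg_mono _ h1).trans ?_
  refine eval_mem_sub (Kn S k hk (bxd c z s k ⊔ A)) _ _ (fun n => ?_) fun n hn0 x hx => ?_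
  · exact (dg_mono _ hk).trans ((hA' z n).trans le_sup_right)
  · rcases x with i | l
    · exact ((Finset.le_sup (f := fun i => dg (c.q i - c.q0 s i) k) (mem_univ i)).trans le_sup_left).trans le_sup_left
    · have hl : w l < w z := hc.low hw hn0 hx
      have hlz : l ≠ z := by
        rintro rfl
        exact lt_irrefl _ hl
      exact ((Finset.le_sup (f := fun j => dg (c.γ s j) k) (Finset.mem_erase.mpr ⟨hlz, mem_univ l⟩)).trans
        le_sup_right).trans le_sup_left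

/-- the box is a function of the digits of level `w z * s` of the point -/
theorem Fr.pt {ρ : ℝ} (hc : Fr c w z) (hn : c.Num w z ρ) (hw : ∀ j, 1 < w j) (hz : ∀ j, w j ≤ w z) (hq : Rl c.q ⊥)
    {s : ℝ} (h0 : 0 ≤ s) (h1 : w z * s ≤ 1) : c.K s ≤ vd c.q (w z * s) ⊔ vd c.R (w z * s) := by
  obtain ⟨k, hk⟩ : ∃ k, k = w z * s := ⟨_, rfl⟩
  have hk0 : 0 ≤ k := by
    rw [hk]
    exact mul_nonneg (one_pos.trans (hw z)).le h0
  have hk1 : k ≤ 1 := hk ▸ h1
  rw [← hk]
  have e1 : vd c.q k ⊔ vd c.R k = (vd c.q k ⊔ vd (c.M z) k) ⊔ dg (c.R z) k := by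
    rw [CD.vdR_eq (z := z) k, sup_comm (dg (c.R z) k), sup_assoc]
  -- lower bound
  have a1 : h (vd c.q k) ⊥ = ((d : ℝ) + 1) * k := by
    have h2 := (Rl_iff_Rt.mp hq).mono hk0 hk1
    unfold Rt at h2
    rw [h2, Fintype.card_fin]
    push_cast
    ring
  have a2 : ((N : ℝ) - 1) * k ≤ h (vd (c.M z) k) (vd c.q k ⊔ ⊥) := by
    rw [← hn.pr1 k hk0 hk1, sup_bot_eq]
    exact h_anti (vd_mono c.q hk1)
  have a3 : (1 - ρ) * k ≤ h (dg (c.R z) k) ((vd c.q k ⊔ vd (c.M z) k) ⊔ ⊥) := by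
    rw [← hc.h_z hn hw hk0 hk1, sup_bot_eq]
    apply h_anti
    exact sup_le ((vd_mono c.q hk1).trans le_sup_right) ((vd_mono _ hk1).trans le_sup_left)
  have a4 : ((d : ℝ) + 1) * k + ((N : ℝ) - 1) * k + (1 - ρ) * k ≤ H (vd c.q k ⊔ vd c.R k) := by
    rw [e1, ← h_bot, h_chain, h_chain, a1]
    linarith
  -- upper bound
  have b1 : h (vd c.q k ⊔ vd c.R k) (c.K s) ≤
      ((d : ℝ) + 1) * (k - s) + (((N : ℝ) - 1) * k - (∑ j ∈ univ.erase z, w j) * s) := by
    refine le_trans ?_ (hc.h_bxd hw hz h0 hk.ge hk1 (c.K s))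
    have h2 : vd c.q k ⊔ vd c.R k ≤ bxd c z s k ⊔ c.K s := by
      rw [e1]
      refine sup_le (hc.low_le hw hz h0 h1 hk1 (fun i => hc.litq_le s i) fun j n => hc.litF_le s j n) ?_
      have h3 := hc.z_le hw hz h0 hk.ge hk1 (A := c.K s) fun j n => hc.litF_le s j n
      rw [← hk] at h3
      exact h3
    refine (h_mono (B := c.K s) h2).trans (le_of_eq (h_sup_right_of_le le_rfl))
  have c1 := H_chain (c.K s) (vd c.q k ⊔ vd c.R k)
  have c2 := H_chain (vd c.q k ⊔ vd c.R k) (c.K s)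
  rw [sup_comm] at c2
  have c3 := hn.hbe s h0 h1
  rw [← h_le_zero_iff]
  have c4 : (1 - ρ) * k = (1 - ρ) * w z * s := by
    rw [hk]
    ring
  nlinarith

/-- THE BOX IS GENERATED by any information which knows the centre and the coefficients of the frame -/
theorem Fr.gen {ρ : ℝ} (hc : Fr c w z) (hn : c.Num w z ρ) (hw : ∀ j, 1 < w j) (hz : ∀ j, w j ≤ w z) (hq : Rl c.q ⊥)
    {s : ℝ} (h0 : 0 ≤ s) (h1 : w z * s ≤ 1) {A : S.L} (hA0 : A ≤ c.K s) (hA : ∀ i, dg (c.q0 s i) 1 ≤ A)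
    (hA' : ∀ j n, dg ((c.F s j).coeff n) 1 ≤ A) : c.K s = A := by
  have hk0 : 0 ≤ w z * s := mul_nonneg (one_pos.trans (hw z)).le h0
  have hKO : c.K s ≤ c.O := (hc.pt hn hw hz hq h0 h1).trans (sup_le_sup (vd_mono _ h1) (vd_mono _ h1))
  have e1 : c.O = (vd c.q 1 ⊔ vd (c.M z) 1) ⊔ dg (c.R z) 1 := by
    unfold CD.O
    rw [CD.vdR_eq (z := z) 1, sup_comm (dg (c.R z) 1), sup_assoc]
  have hlow := hc.low_le hw hz h0 h1 le_rfl hA hA'
  have b1 : h (vd c.q 1 ⊔ vd (c.M z) 1) A ≤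
      ((d : ℝ) + 1) * (1 - s) + (((N : ℝ) - 1) * 1 - (∑ j ∈ univ.erase z, w j) * s) := by
    refine le_trans ?_ (hc.h_bxd hw hz h0 h1 le_rfl A)
    exact (h_mono (B := A) hlow).trans (le_of_eq (h_sup_right_of_le le_rfl))
  have b2 : h (dg (c.R z) 1) ((vd c.q 1 ⊔ vd (c.M z) 1) ⊔ A) ≤ (1 - ρ) * (1 - w z * s) := by
    have h3 : dg (c.R z) (w z * s) ≤ (vd c.q 1 ⊔ vd (c.M z) 1) ⊔ A := by
      refine (hc.z_le hw hz h0 h1 le_rfl hA').trans (sup_le ?_ le_sup_right)
      -- box coordinates from the point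
      have h4 : ∀ i, dg (c.q i - c.q0 s i) 1 ≤ (vd c.q 1 ⊔ vd (c.M z) 1) ⊔ A := fun i =>
        (dg_sub_le _ _ le_rfl).trans (sup_le (((dg_le_vd c.q 1 i).trans le_sup_left).trans le_sup_left)
          ((hA i).trans le_sup_right))
      refine sup_le (Finset.sup_le fun i _ => h4 i) (Finset.sup_le fun j hj => ?_)
      -- induction on the weight
      have key : ∀ j, j ≠ z → dg (c.γ s j) 1 ≤ (vd c.q 1 ⊔ vd (c.M z) 1) ⊔ A := by
        intro j
        induction hcard : (univ.filter fun l => w l < w j).card using Nat.strong_induction_on generalizing j with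
        | _ n ih =>
          intro hjz
          have e2 : c.γ s j = c.R j -
              MvPolynomial.eval (Sum.elim (fun i => c.q i - c.q0 s i) (c.γ s)) (c.F s j) := by
            rw [hc.fR s h0 h1 j]
            ring
          rw [e2]
          have hR : c.R j ∈ Kn S 1 le_rfl ((vd c.q 1 ⊔ vd (c.M z) 1) ⊔ A) :=
            ((dg_le_vd (c.M z) 1 ⟨j, hjz⟩).trans le_sup_right).trans le_sup_left
          refine (Kn S 1 le_rfl _).sub_mem hR (eval_mem_sub _ _ _ (fun n => (hA' j n).trans le_sup_right)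
            fun n hn0 x hx => ?_)
          rcases x with i | l
          · exact h4 i
          · have hl : w l < w j := hc.low hw hn0 hx
            refine ih _ ?_ l rfl ?_
            · rw [← hcard]
              apply Finset.card_lt_card
              rw [Finset.ssubset_iff_of_subset]
              · exact ⟨l, by simpa using hl, by simp⟩
              · intro a ha
                simp only [mem_filter, mem_univ, true_and] at ha ⊢
                exact ha.trans hl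
            · rintro rfl
              exact absurd (hz j) (not_le.mpr hl)
      exact key j (Finset.ne_of_mem_erase hj)
    have h5 := hc.h_zz hn hw hk0 h1 le_rfl
    rw [← h5]
    apply h_anti
    refine sup_le h3 (sup_le (le_sup_right.trans le_sup_left) ?_)
    exact (le_sup_left : c.P ≤ vd c.q 1 ⊔ vd (c.M z) 1).trans le_sup_left
  have b3 : h c.O A ≤ h c.O (c.K s) := by
    rw [hc.h_O_K hn hw hq h0 h1, e1, h_chain]
    linarith
  apply le_antisymm _ hA0
  rw [← h_le_zero_iff]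
  have c1 := H_chain (c.K s) c.O
  have c2 := H_chain A c.O
  rw [sup_eq_right.mpr hKO] at c1
  rw [sup_eq_right.mpr (hA0.trans hKO)] at c2
  have c3 := H_chain A (c.K s)
  rw [sup_eq_right.mpr hA0] at c3
  linarith

end

end Pool.Agent.Helper71.BLD
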